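import Pool.Agent.helper14.NS.Q175a.PN15

/-!
Generated: certificates.
-/

namespace Pool.Agent.helper14.NS.Q175a

open Pool.Agent.helper31.IA (Z)
open Pool.Agent.helper31.IX (Op XOps runX Cov CovD cov_split covD_split)
open Pool.Agent.helper31.IC (TD)
open Pool.Agent.helper63.RG (reloc)
open Pool.Agent.helper63.NF hiding TD
open Pool.Agent.helper4.NS
open Pool.Agent.helper14.CF (xE covD_E)
open Pool.Agent.helper14.NR (share)

mutual
theorem A15_c0_t6 : CovD 1 gA15 [(5889851392, 393216000), (137438953472, 137438953472), (68719476736, 68719476736)] :=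
  covD_E kA15_eq (.n 2 (.l 2) (.n 1 (.n 2 (.l 2) (.n 2 (.l 2) (.n 1 (.n 2 (.l 2) (.n 1 (.n 1 (.l 0) (.l 0)) (.l 0))) (.l 0)))) (.l 0)))
    [(5889851392, 393216000), (137438953472, 137438953472), (68719476736, 68719476736)] rfl (by decide +kernel)
theorem A15_c0_t10 : CovD 1 gA15 [(5889851392, 393216000), (17179869184, 17179869184), (206158430208, 68719476736)] :=
  covD_E kA15_eq (.n 1 (.n 2 (.n 2 (.n 1 (.l 0) (.l 0)) (.l 0)) (.n 0 (.l 0) (.l 0))) (.n 2 (.n 2 (.n 1 (.l 0) (.l 0)) (.l 0)) (.n 0 (.l 0) (.l 0))))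
    [(5889851392, 393216000), (17179869184, 17179869184), (206158430208, 68719476736)] rfl (by decide +kernel)
end

mutual
theorem A15_c0_t11 : CovD 1 gA15 [(5889851392, 393216000), (51539607552, 17179869184), (206158430208, 68719476736)] :=
  covD_E kA15_eq (.n 1 (.n 2 (.n 2 (.l 0) (.l 0)) (.n 1 (.l 0) (.l 0))) (.n 2 (.n 2 (.l 0) (.l 0)) (.n 0 (.l 0) (.l 0))))
    [(5889851392, 393216000), (51539607552, 17179869184), (206158430208, 68719476736)] rfl (by decide +kernel)
theorem A15_c0_t12 : CovD 1 gA15 [(5889851392, 393216000), (103079215104, 34359738368), (206158430208, 68719476736)] :=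
  covD_E kA15_eq (.n 1 (.n 1 (.n 2 (.l 0) (.l 0)) (.n 2 (.l 0) (.l 0))) (.n 2 (.l 0) (.l 0)))
    [(5889851392, 393216000), (103079215104, 34359738368), (206158430208, 68719476736)] rfl (by decide +kernel)
end

mutual
theorem A15_c0_t13 : CovD 1 gA15 [(5889851392, 393216000), (206158430208, 68719476736), (206158430208, 68719476736)] :=
  covD_E kA15_eq (.n 1 (.n 2 (.l 0) (.l 0)) (.l 0))
    [(5889851392, 393216000), (206158430208, 68719476736), (206158430208, 68719476736)] rfl (by decide +kernel)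
theorem A15_c0_t16 : CovD 1 gA15 [(5889851392, 393216000), (34359738368, 34359738368), (412316860416, 137438953472)] :=
  covD_E kA15_eq (.n 1 (.n 2 (.n 2 (.n 1 (.l 0) (.l 0)) (.l 0)) (.n 1 (.l 0) (.l 0))) (.n 2 (.n 2 (.n 1 (.l 0) (.l 0)) (.l 0)) (.n 0 (.l 0) (.l 0))))
    [(5889851392, 393216000), (34359738368, 34359738368), (412316860416, 137438953472)] rfl (by decide +kernel)
end

mutual
theorem A15_c0_t17 : CovD 1 gA15 [(5889851392, 393216000), (103079215104, 34359738368), (412316860416, 137438953472)] :=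
  covD_E kA15_eq (.n 1 (.n 2 (.n 2 (.n 0 (.l 0) (.l 0)) (.l 0)) (.n 1 (.l 0) (.l 0))) (.n 2 (.n 2 (.l 0) (.l 0)) (.n 1 (.l 0) (.l 0))))
    [(5889851392, 393216000), (103079215104, 34359738368), (412316860416, 137438953472)] rfl (by decide +kernel)
theorem A15_c0_t18 : CovD 1 gA15 [(5889851392, 393216000), (206158430208, 68719476736), (412316860416, 137438953472)] :=
  covD_E kA15_eq (.n 1 (.n 2 (.n 2 (.l 0) (.l 0)) (.n 2 (.l 0) (.l 0))) (.n 2 (.l 0) (.l 0)))
    [(5889851392, 393216000), (206158430208, 68719476736), (412316860416, 137438953472)] rfl (by decide +kernel)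
end

mutual
theorem A15_c0_t20 : CovD 1 gA15 [(5889851392, 393216000), (68719476736, 68719476736), (824633720832, 274877906944)] :=
  covD_E kA15_eq (.n 1 (.n 2 (.n 1 (.n 2 (.l 0) (.l 0)) (.n 2 (.l 0) (.l 0))) (.n 2 (.l 0) (.l 0))) (.n 2 (.n 1 (.n 2 (.l 0) (.l 0)) (.n 2 (.l 0) (.l 0))) (.n 2 (.n 0 (.l 0) (.l 0)) (.l 0))))
    [(5889851392, 393216000), (68719476736, 68719476736), (824633720832, 274877906944)] rfl (by decide +kernel)
theorem A15_c0_t21 : CovD 1 gA15 [(5889851392, 393216000), (206158430208, 68719476736), (824633720832, 274877906944)] :=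
  covD_E kA15_eq (.n 1 (.n 2 (.n 1 (.n 2 (.l 0) (.l 0)) (.n 2 (.l 0) (.l 0))) (.n 2 (.l 0) (.l 0))) (.n 2 (.n 2 (.n 0 (.l 0) (.l 0)) (.l 0)) (.n 2 (.l 0) (.l 0))))
    [(5889851392, 393216000), (206158430208, 68719476736), (824633720832, 274877906944)] rfl (by decide +kernel)
end

mutual
theorem A15_c0_t23 : CovD 1 gA15 [(5889851392, 393216000), (137438953472, 137438953472), (1374389534720, 274877906944)] :=
  covD_E kA15_eq (.n 1 (.n 1 (.n 2 (.n 0 (.l 0) (.l 0)) (.l 0)) (.n 2 (.n 0 (.l 0) (.l 0)) (.l 0))) (.n 1 (.n 2 (.n 0 (.l 0) (.l 0)) (.l 0)) (.n 2 (.n 0 (.l 0) (.l 0)) (.l 0))))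
    [(5889851392, 393216000), (137438953472, 137438953472), (1374389534720, 274877906944)] rfl (by decide +kernel)
theorem A15_c0_t24 : CovD 1 gA15 [(5889851392, 393216000), (137438953472, 137438953472), (1924145348608, 274877906944)] :=
  covD_E kA15_eq (.n 1 (.n 1 (.n 2 (.l 0) (.l 0)) (.n 2 (.l 0) (.l 0))) (.n 1 (.n 2 (.l 0) (.l 0)) (.n 2 (.l 0) (.l 0))))
    [(5889851392, 393216000), (137438953472, 137438953472), (1924145348608, 274877906944)] rfl (by decide +kernel)
end

mutual
theorem A15_c0_t27 : CovD 1 gA15 [(5889851392, 393216000), (137438953472, 137438953472), (2473901162496, 274877906944)] :=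
  covD_E kA15_eq (.n 1 (.n 2 (.n 2 (.l 0) (.n 0 (.l 0) (.l 0))) (.n 2 (.n 1 (.l 0) (.l 0)) (.n 0 (.l 0) (.n 1 (.l 0) (.l 0))))) (.n 2 (.n 2 (.l 0) (.n 0 (.l 0) (.l 0))) (.n 2 (.n 1 (.l 0) (.l 0)) (.n 0 (.l 0) (.n 1 (.l 0) (.l 0))))))
    [(5889851392, 393216000), (137438953472, 137438953472), (2473901162496, 274877906944)] rfl (by decide +kernel)
theorem A15_c0_t30 : CovD 1 gA15 [(5693243392, 196608000), (68719476736, 68719476736), (3023656976384, 274877906944)] :=
  covD_E kA15_eq (.n 2 (.n 2 (.n 1 (.l 0) (.l 0)) (.n 2 (.l 0) (.l 0))) (.n 1 (.n 2 (.n 2 (.l 0) (.l 0)) (.n 2 (.l 0) (.n 0 (.l 0) (.l 0)))) (.n 2 (.n 2 (.l 0) (.l 0)) (.n 2 (.l 0) (.l 0)))))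
    [(5693243392, 196608000), (68719476736, 68719476736), (3023656976384, 274877906944)] rfl (by decide +kernel)
end

mutual
theorem A15_c0_t31 : CovD 1 gA15 [(6086459392, 196608000), (68719476736, 68719476736), (3023656976384, 274877906944)] :=
  covD_E kA15_eq (.n 1 (.n 2 (.n 2 (.n 2 (.l 0) (.l 0)) (.n 2 (.l 0) (.l 0))) (.n 2 (.n 2 (.l 0) (.l 0)) (.n 2 (.l 0) (.l 0)))) (.n 2 (.n 2 (.n 2 (.l 0) (.l 0)) (.n 2 (.l 0) (.l 0))) (.n 2 (.n 2 (.l 0) (.l 0)) (.n 2 (.l 0) (.l 0)))))
    [(6086459392, 196608000), (68719476736, 68719476736), (3023656976384, 274877906944)] rfl (by decide +kernel)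
theorem A15_c0_t33 : CovD 1 gA15 [(5889851392, 393216000), (206158430208, 68719476736), (2886218022912, 137438953472)] :=
  covD_E kA15_eq (.n 1 (.n 2 (.n 2 (.l 0) (.l 0)) (.n 2 (.l 0) (.n 0 (.l 0) (.l 0)))) (.n 2 (.n 2 (.l 0) (.l 0)) (.n 2 (.l 0) (.l 0))))
    [(5889851392, 393216000), (206158430208, 68719476736), (2886218022912, 137438953472)] rfl (by decide +kernel)
end

mutual
theorem A15_c0_t34 : CovD 1 gA15 [(5889851392, 393216000), (206158430208, 68719476736), (3161095929856, 137438953472)] :=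
  covD_E kA15_eq (.n 0 (.n 2 (.n 2 (.l 0) (.l 0)) (.n 2 (.l 0) (.n 0 (.l 0) (.l 0)))) (.n 2 (.n 0 (.n 2 (.l 0) (.l 0)) (.n 2 (.l 0) (.l 0))) (.n 2 (.l 0) (.n 0 (.l 0) (.l 0)))))
    [(5889851392, 393216000), (206158430208, 68719476736), (3161095929856, 137438953472)] rfl (by decide +kernel)
theorem A15_c0_t40 : CovD 1 gA15 [(5693243392, 196608000), (68719476736, 68719476736), (3367254360064, 68719476736)] :=
  covD_E kA15_eq (.n 1 (.n 2 (.n 2 (.l 0) (.l 0)) (.n 2 (.n 0 (.l 0) (.l 0)) (.n 2 (.l 0) (.l 0)))) (.n 2 (.n 0 (.l 0) (.l 0)) (.n 2 (.l 0) (.n 0 (.l 0) (.l 0)))))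
    [(5693243392, 196608000), (68719476736, 68719476736), (3367254360064, 68719476736)] rfl (by decide +kernel)
end

mutual
theorem A15_c0_t41 : CovD 1 gA15 [(6086459392, 196608000), (68719476736, 68719476736), (3367254360064, 68719476736)] :=
  covD_E kA15_eq (.n 1 (.n 2 (.n 0 (.l 0) (.l 0)) (.n 2 (.l 0) (.n 0 (.l 0) (.l 0)))) (.n 2 (.n 0 (.l 0) (.l 0)) (.n 2 (.l 0) (.l 0))))
    [(6086459392, 196608000), (68719476736, 68719476736), (3367254360064, 68719476736)] rfl (by decide +kernel)
theorem A15_c0_t46 : CovD 1 gA15 [(5594939392, 98304000), (34359738368, 34359738368), (3470333575168, 34359738368)] :=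
  covD_E kA15_eq (.n 2 (.n 1 (.l 0) (.l 0)) (.n 2 (.l 0) (.l 0)))
    [(5594939392, 98304000), (34359738368, 34359738368), (3470333575168, 34359738368)] rfl (by decide +kernel)
end

mutual
theorem A15_c0_t47 : CovD 1 gA15 [(5594939392, 98304000), (34359738368, 34359738368), (3539053051904, 34359738368)] :=
  covD_E kA15_eq (.n 0 (.n 1 (.n 2 (.n 2 (.l 0) (.n 2 (.l 0) (.n 1 (.l 1) (.l 1)))) (.l 1)) (.n 2 (.n 0 (.l 0) (.l 0)) (.l 1))) (.n 1 (.n 2 (.n 1 (.n 0 (.l 0) (.l 0)) (.l 0)) (.l 1)) (.n 2 (.n 0 (.l 0) (.l 0)) (.l 1))))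
    [(5594939392, 98304000), (34359738368, 34359738368), (3539053051904, 34359738368)] rfl (by decide +kernel)
theorem A15_c0_t48 : CovD 1 gA15 [(5594939392, 98304000), (103079215104, 34359738368), (3504693313536, 68719476736)] :=
  covD_E kA15_eq (.n 2 (.n 2 (.l 0) (.n 0 (.l 0) (.l 0))) (.n 0 (.n 1 (.n 2 (.l 0) (.l 1)) (.n 2 (.l 0) (.l 1))) (.n 0 (.n 2 (.l 0) (.n 1 (.l 1) (.l 1))) (.n 2 (.l 0) (.n 1 (.l 1) (.l 1))))))
    [(5594939392, 98304000), (103079215104, 34359738368), (3504693313536, 68719476736)] rfl (by decide +kernel)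
end

mutual
theorem A15_c0_t51 : CovD 1 gA15 [(5791547392, 98304000), (17179869184, 17179869184), (3504693313536, 68719476736)] :=
  covD_E kA15_eq (.n 2 (.n 2 (.l 0) (.l 0)) (.n 0 (.n 0 (.n 2 (.l 0) (.l 1)) (.n 2 (.l 0) (.l 1))) (.n 1 (.n 2 (.l 0) (.l 1)) (.n 2 (.l 0) (.l 1)))))
    [(5791547392, 98304000), (17179869184, 17179869184), (3504693313536, 68719476736)] rfl (by decide +kernel)
theorem A15_c0_t52 : CovD 1 gA15 [(5791547392, 98304000), (51539607552, 17179869184), (3504693313536, 68719476736)] :=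
  covD_E kA15_eq (.n 2 (.n 2 (.l 0) (.l 0)) (.n 0 (.n 2 (.l 0) (.n 0 (.l 1) (.l 1))) (.n 2 (.l 0) (.n 1 (.l 1) (.n 0 (.l 1) (.l 1))))))
    [(5791547392, 98304000), (51539607552, 17179869184), (3504693313536, 68719476736)] rfl (by decide +kernel)
end

mutual
theorem A15_c0_t53 : CovD 1 gA15 [(5791547392, 98304000), (103079215104, 34359738368), (3504693313536, 68719476736)] :=
  covD_E kA15_eq (.n 2 (.n 2 (.l 0) (.l 0)) (.n 0 (.n 2 (.l 0) (.n 2 (.n 1 (.n 0 (.l 1) (.l 1)) (.n 2 (.l 0) (.l 1))) (.l 1))) (.n 2 (.l 0) (.n 2 (.n 1 (.n 2 (.l 0) (.l 1)) (.n 2 (.l 0) (.l 1))) (.l 1)))))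
    [(5791547392, 98304000), (103079215104, 34359738368), (3504693313536, 68719476736)] rfl (by decide +kernel)
theorem A15_c0_t57 : CovD 1 gA15 [(5988155392, 98304000), (34359738368, 34359738368), (3470333575168, 34359738368)] :=
  covD_E kA15_eq (.n 2 (.l 0) (.n 0 (.l 0) (.l 0)))
    [(5988155392, 98304000), (34359738368, 34359738368), (3470333575168, 34359738368)] rfl (by decide +kernel)
end

mutual
theorem A15_c0_t59 : CovD 1 gA15 [(5988155392, 98304000), (17179869184, 17179869184), (3539053051904, 34359738368)] :=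
  covD_E kA15_eq (.n 0 (.n 2 (.l 0) (.n 1 (.l 1) (.n 0 (.l 1) (.l 1)))) (.n 2 (.l 0) (.n 2 (.n 2 (.n 0 (.l 0) (.l 0)) (.l 1)) (.l 1))))
    [(5988155392, 98304000), (17179869184, 17179869184), (3539053051904, 34359738368)] rfl (by decide +kernel)
theorem A15_c0_t60 : CovD 1 gA15 [(5988155392, 98304000), (51539607552, 17179869184), (3539053051904, 34359738368)] :=
  covD_E kA15_eq (.n 2 (.n 0 (.l 0) (.l 0)) (.n 2 (.n 0 (.n 2 (.n 0 (.l 0) (.l 0)) (.l 1)) (.n 2 (.l 0) (.l 1))) (.l 1)))
    [(5988155392, 98304000), (51539607552, 17179869184), (3539053051904, 34359738368)] rfl (by decide +kernel)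
end

mutual
theorem A15_c0_t61 : CovD 1 gA15 [(5988155392, 98304000), (103079215104, 34359738368), (3504693313536, 68719476736)] :=
  covD_E kA15_eq (.n 2 (.n 2 (.l 0) (.l 0)) (.n 0 (.n 2 (.l 0) (.n 2 (.n 1 (.n 2 (.l 0) (.l 1)) (.n 0 (.l 0) (.l 0))) (.l 1))) (.n 2 (.l 0) (.n 1 (.n 2 (.n 0 (.l 0) (.l 0)) (.l 1)) (.n 2 (.l 0) (.l 1))))))
    [(5988155392, 98304000), (103079215104, 34359738368), (3504693313536, 68719476736)] rfl (by decide +kernel)
theorem A15_c0_t64 : CovD 1 gA15 [(6184763392, 98304000), (34359738368, 34359738368), (3470333575168, 34359738368)] :=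
  covD_E kA15_eq (.n 2 (.l 0) (.n 0 (.l 0) (.l 0)))
    [(6184763392, 98304000), (34359738368, 34359738368), (3470333575168, 34359738368)] rfl (by decide +kernel)
end

mutual
theorem A15_c0_t66 : CovD 1 gA15 [(6184763392, 98304000), (34359738368, 34359738368), (3521873182720, 17179869184)] :=
  covD_E kA15_eq (.n 2 (.l 0) (.n 0 (.l 0) (.l 0)))
    [(6184763392, 98304000), (34359738368, 34359738368), (3521873182720, 17179869184)] rfl (by decide +kernel)
theorem A15_c0_t67 : CovD 1 gA15 [(6184763392, 98304000), (34359738368, 34359738368), (3556232921088, 17179869184)] :=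
  covD_E kA15_eq (.n 0 (.n 1 (.n 2 (.n 2 (.l 0) (.n 0 (.l 1) (.l 1))) (.l 1)) (.n 2 (.n 0 (.n 0 (.l 0) (.l 0)) (.l 0)) (.l 1))) (.n 1 (.n 2 (.n 1 (.n 0 (.l 0) (.l 0)) (.l 0)) (.l 1)) (.n 2 (.n 0 (.l 0) (.l 0)) (.l 1))))
    [(6184763392, 98304000), (34359738368, 34359738368), (3556232921088, 17179869184)] rfl (by decide +kernel)
end

mutual
theorem A15_c0_t68 : CovD 1 gA15 [(6184763392, 98304000), (103079215104, 34359738368), (3504693313536, 68719476736)] :=
  covD_E kA15_eq (.n 2 (.n 2 (.l 0) (.n 0 (.l 0) (.l 0))) (.n 2 (.n 2 (.l 0) (.l 0)) (.n 0 (.n 1 (.n 2 (.l 0) (.l 1)) (.n 2 (.l 0) (.l 1))) (.n 1 (.n 2 (.l 0) (.l 1)) (.n 2 (.l 0) (.n 0 (.l 1) (.l 1)))))))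
    [(6184763392, 98304000), (103079215104, 34359738368), (3504693313536, 68719476736)] rfl (by decide +kernel)
theorem A15_c0_t69 : CovD 1 gA15 [(5889851392, 393216000), (68719476736, 68719476736), (3710851743744, 137438953472)] :=
  covD_E kA15_eq (.n 2 (.n 1 (.n 2 (.n 0 (.l 1) (.n 0 (.l 1) (.l 1))) (.l 1)) (.n 2 (.n 0 (.l 1) (.n 0 (.l 1) (.l 1))) (.l 1))) (.l 1))
    [(5889851392, 393216000), (68719476736, 68719476736), (3710851743744, 137438953472)] rfl (by decide +kernel)
end

mutual
theorem A15_c0_t74 : CovD 1 gA15 [(5693243392, 196608000), (171798691840, 34359738368), (3367254360064, 68719476736)] :=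
  covD_E kA15_eq (.n 2 (.l 0) (.n 2 (.l 0) (.l 0)))
    [(5693243392, 196608000), (171798691840, 34359738368), (3367254360064, 68719476736)] rfl (by decide +kernel)
theorem A15_c0_t76 : CovD 1 gA15 [(5594939392, 98304000), (171798691840, 34359738368), (3504693313536, 68719476736)] :=
  covD_E kA15_eq (.n 2 (.n 2 (.l 0) (.l 0)) (.n 2 (.n 0 (.l 0) (.l 0)) (.n 2 (.n 0 (.n 0 (.n 1 (.l 1) (.l 1)) (.n 1 (.l 1) (.l 1))) (.n 0 (.n 2 (.l 0) (.l 1)) (.n 1 (.l 1) (.l 0)))) (.l 1))))
    [(5594939392, 98304000), (171798691840, 34359738368), (3504693313536, 68719476736)] rfl (by decide +kernel)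
end

mutual
theorem A15_c0_t77 : CovD 1 gA15 [(5791547392, 98304000), (171798691840, 34359738368), (3504693313536, 68719476736)] :=
  covD_E kA15_eq (.n 2 (.n 2 (.l 0) (.l 0)) (.n 0 (.n 2 (.l 0) (.n 2 (.n 2 (.l 0) (.n 0 (.l 1) (.l 1))) (.l 1))) (.n 2 (.l 0) (.n 2 (.n 1 (.n 0 (.l 0) (.l 0)) (.l 0)) (.l 1)))))
    [(5791547392, 98304000), (171798691840, 34359738368), (3504693313536, 68719476736)] rfl (by decide +kernel)
theorem A15_c0_t79 : CovD 1 gA15 [(5693243392, 196608000), (240518168576, 34359738368), (3367254360064, 68719476736)] :=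
  covD_E kA15_eq (.n 2 (.l 0) (.n 0 (.l 0) (.l 0)))
    [(5693243392, 196608000), (240518168576, 34359738368), (3367254360064, 68719476736)] rfl (by decide +kernel)
end

mutual
theorem A15_c0_t81 : CovD 1 gA15 [(5693243392, 196608000), (240518168576, 34359738368), (3470333575168, 34359738368)] :=
  covD_E kA15_eq (.n 2 (.l 0) (.n 0 (.l 0) (.l 0)))
    [(5693243392, 196608000), (240518168576, 34359738368), (3470333575168, 34359738368)] rfl (by decide +kernel)
theorem A15_c0_t83 : CovD 1 gA15 [(5594939392, 98304000), (240518168576, 34359738368), (3539053051904, 34359738368)] :=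
  covD_E kA15_eq (.n 0 (.n 2 (.l 0) (.n 2 (.n 0 (.n 2 (.l 0) (.l 1)) (.n 2 (.l 0) (.l 1))) (.l 1))) (.n 2 (.l 0) (.n 2 (.n 1 (.n 0 (.l 0) (.l 0)) (.l 0)) (.l 1))))
    [(5594939392, 98304000), (240518168576, 34359738368), (3539053051904, 34359738368)] rfl (by decide +kernel)
end

mutual
theorem A15_c0_t84 : CovD 1 gA15 [(5791547392, 98304000), (240518168576, 34359738368), (3539053051904, 34359738368)] :=
  covD_E kA15_eq (.n 2 (.l 0) (.n 0 (.n 1 (.n 2 (.l 0) (.l 1)) (.n 2 (.l 0) (.l 1))) (.n 0 (.n 2 (.l 0) (.l 1)) (.n 2 (.l 0) (.l 1)))))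
    [(5791547392, 98304000), (240518168576, 34359738368), (3539053051904, 34359738368)] rfl (by decide +kernel)
theorem A15_c0_t87 : CovD 1 gA15 [(6086459392, 196608000), (171798691840, 34359738368), (3367254360064, 68719476736)] :=
  covD_E kA15_eq (.n 2 (.l 0) (.n 0 (.l 0) (.l 0)))
    [(6086459392, 196608000), (171798691840, 34359738368), (3367254360064, 68719476736)] rfl (by decide +kernel)
end

mutual
theorem A15_c0_t89 : CovD 1 gA15 [(6086459392, 196608000), (171798691840, 34359738368), (3470333575168, 34359738368)] :=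
  covD_E kA15_eq (.n 2 (.l 0) (.n 0 (.l 0) (.l 0)))
    [(6086459392, 196608000), (171798691840, 34359738368), (3470333575168, 34359738368)] rfl (by decide +kernel)
theorem A15_c0_t91 : CovD 1 gA15 [(5988155392, 98304000), (171798691840, 34359738368), (3539053051904, 34359738368)] :=
  covD_E kA15_eq (.n 2 (.l 0) (.n 0 (.n 0 (.n 2 (.l 0) (.l 1)) (.n 2 (.l 0) (.l 1))) (.n 2 (.l 0) (.n 0 (.l 1) (.l 1)))))
    [(5988155392, 98304000), (171798691840, 34359738368), (3539053051904, 34359738368)] rfl (by decide +kernel)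
end

mutual
theorem A15_c0_t92 : CovD 1 gA15 [(6184763392, 98304000), (171798691840, 34359738368), (3539053051904, 34359738368)] :=
  covD_E kA15_eq (.n 0 (.n 2 (.l 0) (.n 2 (.l 0) (.n 1 (.l 1) (.n 0 (.l 1) (.l 1))))) (.n 2 (.l 0) (.n 1 (.n 2 (.l 0) (.n 0 (.l 1) (.l 1))) (.n 0 (.l 0) (.l 0)))))
    [(6184763392, 98304000), (171798691840, 34359738368), (3539053051904, 34359738368)] rfl (by decide +kernel)
theorem A15_c0_t94 : CovD 1 gA15 [(6086459392, 196608000), (240518168576, 34359738368), (3367254360064, 68719476736)] :=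
  covD_E kA15_eq (.n 2 (.l 0) (.n 0 (.l 0) (.l 0)))
    [(6086459392, 196608000), (240518168576, 34359738368), (3367254360064, 68719476736)] rfl (by decide +kernel)
end

mutual
theorem A15_c0_t96 : CovD 1 gA15 [(6086459392, 196608000), (240518168576, 34359738368), (3470333575168, 34359738368)] :=
  covD_E kA15_eq (.n 2 (.l 0) (.n 0 (.l 0) (.l 0)))
    [(6086459392, 196608000), (240518168576, 34359738368), (3470333575168, 34359738368)] rfl (by decide +kernel)
theorem A15_c0_t98 : CovD 1 gA15 [(5988155392, 98304000), (240518168576, 34359738368), (3539053051904, 34359738368)] :=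
  covD_E kA15_eq (.n 2 (.l 0) (.n 0 (.n 2 (.l 0) (.n 1 (.l 1) (.n 0 (.l 1) (.l 1)))) (.n 2 (.l 0) (.n 0 (.n 2 (.l 0) (.l 1)) (.n 1 (.l 1) (.l 0))))))
    [(5988155392, 98304000), (240518168576, 34359738368), (3539053051904, 34359738368)] rfl (by decide +kernel)
end

mutual
theorem A15_c0_t99 : CovD 1 gA15 [(6184763392, 98304000), (240518168576, 34359738368), (3539053051904, 34359738368)] :=
  covD_E kA15_eq (.n 2 (.l 0) (.n 2 (.l 0) (.n 0 (.n 2 (.l 0) (.n 1 (.l 1) (.l 1))) (.n 1 (.l 0) (.l 0)))))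
    [(6184763392, 98304000), (240518168576, 34359738368), (3539053051904, 34359738368)] rfl (by decide +kernel)
theorem A15_c0_t100 : CovD 1 gA15 [(5889851392, 393216000), (206158430208, 68719476736), (3710851743744, 137438953472)] :=
  covD_E kA15_eq (.n 2 (.n 0 (.n 0 (.l 1) (.n 0 (.l 1) (.l 1))) (.n 2 (.n 2 (.n 0 (.n 1 (.l 1) (.l 1)) (.n 1 (.l 1) (.n 0 (.l 1) (.l 1)))) (.l 1)) (.l 1))) (.l 1))
    [(5889851392, 393216000), (206158430208, 68719476736), (3710851743744, 137438953472)] rfl (by decide +kernel)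
end

mutual
theorem A15_c0_t101 : CovD 1 gA15 [(5889851392, 393216000), (137438953472, 137438953472), (4123168604160, 274877906944)] :=
  covD_E kA15_eq (.l 1)
    [(5889851392, 393216000), (137438953472, 137438953472), (4123168604160, 274877906944)] rfl (by decide +kernel)
theorem A15_c0_t102 : CovD 1 gA15 [(5889851392, 393216000), (137438953472, 137438953472), (6597069766656, 2199023255552)] :=
  covD_E kA15_eq (.n 2 (.n 2 (.l 1) (.l 1)) (.n 2 (.l 1) (.l 1)))
    [(5889851392, 393216000), (137438953472, 137438953472), (6597069766656, 2199023255552)] rfl (by decide +kernel)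
end

mutual
theorem B15_c0_t2 : CovD 1 gB15 [(5889851392, 393216000), (137438953472, 137438953472), (17179869184, 17179869184)] :=
  covD_E kB15_eq (.n 1 (.n 2 (.n 0 (.n 2 (.l 1) (.l 1)) (.n 2 (.l 1) (.l 1))) (.n 2 (.n 0 (.l 1) (.l 1)) (.l 1))) (.n 2 (.n 2 (.l 1) (.l 1)) (.n 2 (.l 1) (.l 1))))
    [(5889851392, 393216000), (137438953472, 137438953472), (17179869184, 17179869184)] rfl (by decide +kernel)
theorem B15_c0_t3 : CovD 1 gB15 [(5889851392, 393216000), (137438953472, 137438953472), (51539607552, 17179869184)] :=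
  covD_E kB15_eq (.n 2 (.n 0 (.n 2 (.l 1) (.l 1)) (.n 2 (.l 1) (.l 1))) (.n 2 (.l 1) (.l 1)))
    [(5889851392, 393216000), (137438953472, 137438953472), (51539607552, 17179869184)] rfl (by decide +kernel)
end

mutual
theorem B15_c0_t4 : CovD 1 gB15 [(5889851392, 393216000), (137438953472, 137438953472), (103079215104, 34359738368)] :=
  covD_E kB15_eq (.n 2 (.n 1 (.n 2 (.l 1) (.l 1)) (.n 2 (.l 1) (.l 1))) (.n 2 (.l 1) (.l 1)))
    [(5889851392, 393216000), (137438953472, 137438953472), (103079215104, 34359738368)] rfl (by decide +kernel)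
theorem C15_c0_t4 : CovD 1 gC15 [(5889851392, 393216000), (8589934592, 8589934592), (549755813888, 549755813888)] :=
  covD_E kC15_eq (.n 2 (.n 2 (.n 2 (.l 0) (.l 0)) (.n 2 (.l 0) (.l 0))) (.n 2 (.n 2 (.l 0) (.l 0)) (.n 2 (.l 0) (.n 2 (.l 0) (.n 2 (.l 0) (.n 2 (.l 0) (.n 2 (.l 0) (.n 2 (.l 0) (.l 1)))))))))
    [(5889851392, 393216000), (8589934592, 8589934592), (549755813888, 549755813888)] rfl (by decide +kernel)
end

mutual
theorem C15_c0_t5 : CovD 1 gC15 [(5889851392, 393216000), (25769803776, 8589934592), (549755813888, 549755813888)] :=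
  covD_E kC15_eq (.n 2 (.n 0 (.n 2 (.l 0) (.l 0)) (.n 2 (.l 0) (.l 0))) (.n 2 (.n 1 (.l 0) (.l 0)) (.n 2 (.l 0) (.l 0))))
    [(5889851392, 393216000), (25769803776, 8589934592), (549755813888, 549755813888)] rfl (by decide +kernel)
theorem C15_c0_t6 : CovD 1 gC15 [(5889851392, 393216000), (51539607552, 17179869184), (549755813888, 549755813888)] :=
  covD_E kC15_eq (.n 2 (.n 2 (.l 0) (.l 0)) (.n 1 (.n 2 (.l 0) (.l 0)) (.n 2 (.l 0) (.l 0))))
    [(5889851392, 393216000), (51539607552, 17179869184), (549755813888, 549755813888)] rfl (by decide +kernel)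
end

mutual
theorem C15_c0_t7 : CovD 1 gC15 [(5889851392, 393216000), (103079215104, 34359738368), (549755813888, 549755813888)] :=
  covD_E kC15_eq (.n 2 (.n 2 (.l 0) (.l 0)) (.n 2 (.l 0) (.n 0 (.l 0) (.l 0))))
    [(5889851392, 393216000), (103079215104, 34359738368), (549755813888, 549755813888)] rfl (by decide +kernel)
theorem C15_c0_t8 : CovD 1 gC15 [(5889851392, 393216000), (206158430208, 68719476736), (549755813888, 549755813888)] :=
  covD_E kC15_eq (.n 2 (.n 2 (.l 0) (.l 0)) (.n 2 (.l 0) (.l 0)))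
    [(5889851392, 393216000), (206158430208, 68719476736), (549755813888, 549755813888)] rfl (by decide +kernel)
end

mutual
theorem D15_c0_t1 : CovD 1 gD15 [(5889851392, 393216000), (137438953472, 137438953472), (431805169664, 431805169664)] :=
  covD_E kD15_eq (.n 2 (.n 2 (.n 2 (.n 2 (.l 0) (.l 0)) (.n 2 (.l 0) (.l 0))) (.n 2 (.n 2 (.l 0) (.l 0)) (.n 2 (.l 0) (.l 0)))) (.n 2 (.n 2 (.n 2 (.l 0) (.l 0)) (.n 2 (.l 0) (.l 0))) (.n 2 (.n 2 (.l 0) (.l 0)) (.n 2 (.l 0) (.l 0)))))
    [(5889851392, 393216000), (137438953472, 137438953472), (431805169664, 431805169664)] rfl (by decide +kernel)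
theorem D15_c0_t3 : CovD 1 gD15 [(5889851392, 393216000), (137438953472, 137438953472), (1079512924160, 215902584832)] :=
  covD_E kD15_eq (.n 2 (.n 2 (.n 2 (.l 0) (.l 0)) (.n 2 (.l 0) (.l 0))) (.n 2 (.n 2 (.l 0) (.n 0 (.l 0) (.l 0))) (.n 0 (.n 2 (.l 0) (.l 0)) (.n 2 (.l 0) (.l 0)))))
    [(5889851392, 393216000), (137438953472, 137438953472), (1079512924160, 215902584832)] rfl (by decide +kernel)
end

theorem D15_c0_t4 : CovD 1 gD15 [(5889851392, 393216000), (137438953472, 137438953472), (1511318093824, 215902584832)] :=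
  covD_E kD15_eq (.n 2 (.n 2 (.n 0 (.n 2 (.l 0) (.l 0)) (.n 2 (.l 0) (.l 0))) (.n 0 (.n 2 (.l 0) (.l 0)) (.n 2 (.l 0) (.l 0)))) (.n 2 (.n 2 (.l 0) (.l 0)) (.n 2 (.l 0) (.l 0))))
    [(5889851392, 393216000), (137438953472, 137438953472), (1511318093824, 215902584832)] rfl (by decide +kernel)

theorem A15_c0_t9 : CovD 1 gA15 [(5889851392, 393216000), (34359738368, 34359738368), (206158430208, 68719476736)] :=
  covD_split 1 (by decide +kernel) A15_c0_t10 A15_c0_t11

theorem A15_c0_t8 : CovD 1 gA15 [(5889851392, 393216000), (68719476736, 68719476736), (206158430208, 68719476736)] :=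
  covD_split 1 (by decide +kernel) A15_c0_t9 A15_c0_t12

theorem A15_c0_t7 : CovD 1 gA15 [(5889851392, 393216000), (137438953472, 137438953472), (206158430208, 68719476736)] :=
  covD_split 1 (by decide +kernel) A15_c0_t8 A15_c0_t13

theorem A15_c0_t5 : CovD 1 gA15 [(5889851392, 393216000), (137438953472, 137438953472), (137438953472, 137438953472)] :=
  covD_split 2 (by decide +kernel) A15_c0_t6 A15_c0_t7

theorem A15_c0_t15 : CovD 1 gA15 [(5889851392, 393216000), (68719476736, 68719476736), (412316860416, 137438953472)] :=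
  covD_split 1 (by decide +kernel) A15_c0_t16 A15_c0_t17

theorem A15_c0_t14 : CovD 1 gA15 [(5889851392, 393216000), (137438953472, 137438953472), (412316860416, 137438953472)] :=
  covD_split 1 (by decide +kernel) A15_c0_t15 A15_c0_t18

theorem A15_c0_t4 : CovD 1 gA15 [(5889851392, 393216000), (137438953472, 137438953472), (274877906944, 274877906944)] :=
  covD_split 2 (by decide +kernel) A15_c0_t5 A15_c0_t14

theorem A15_c0_t19 : CovD 1 gA15 [(5889851392, 393216000), (137438953472, 137438953472), (824633720832, 274877906944)] :=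
  covD_split 1 (by decide +kernel) A15_c0_t20 A15_c0_t21

theorem A15_c0_t3 : CovD 1 gA15 [(5889851392, 393216000), (137438953472, 137438953472), (549755813888, 549755813888)] :=
  covD_split 2 (by decide +kernel) A15_c0_t4 A15_c0_t19

theorem A15_c0_t22 : CovD 1 gA15 [(5889851392, 393216000), (137438953472, 137438953472), (1649267441664, 549755813888)] :=
  covD_split 2 (by decide +kernel) A15_c0_t23 A15_c0_t24

theorem A15_c0_t2 : CovD 1 gA15 [(5889851392, 393216000), (137438953472, 137438953472), (1099511627776, 1099511627776)] :=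
  covD_split 2 (by decide +kernel) A15_c0_t3 A15_c0_t22

theorem A15_c0_t29 : CovD 1 gA15 [(5889851392, 393216000), (68719476736, 68719476736), (3023656976384, 274877906944)] :=
  covD_split 0 (by decide +kernel) A15_c0_t30 A15_c0_t31

theorem A15_c0_t32 : CovD 1 gA15 [(5889851392, 393216000), (206158430208, 68719476736), (3023656976384, 274877906944)] :=
  covD_split 2 (by decide +kernel) A15_c0_t33 A15_c0_t34

theorem A15_c0_t28 : CovD 1 gA15 [(5889851392, 393216000), (137438953472, 137438953472), (3023656976384, 274877906944)] :=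
  covD_split 1 (by decide +kernel) A15_c0_t29 A15_c0_t32

theorem A15_c0_t26 : CovD 1 gA15 [(5889851392, 393216000), (137438953472, 137438953472), (2748779069440, 549755813888)] :=
  covD_split 2 (by decide +kernel) A15_c0_t27 A15_c0_t28

theorem A15_c0_t39 : CovD 1 gA15 [(5889851392, 393216000), (68719476736, 68719476736), (3367254360064, 68719476736)] :=
  covD_split 0 (by decide +kernel) A15_c0_t40 A15_c0_t41

theorem A15_c0_t45 : CovD 1 gA15 [(5594939392, 98304000), (34359738368, 34359738368), (3504693313536, 68719476736)] :=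
  covD_split 2 (by decide +kernel) A15_c0_t46 A15_c0_t47

theorem A15_c0_t44 : CovD 1 gA15 [(5594939392, 98304000), (68719476736, 68719476736), (3504693313536, 68719476736)] :=
  covD_split 1 (by decide +kernel) A15_c0_t45 A15_c0_t48

theorem A15_c0_t50 : CovD 1 gA15 [(5791547392, 98304000), (34359738368, 34359738368), (3504693313536, 68719476736)] :=
  covD_split 1 (by decide +kernel) A15_c0_t51 A15_c0_t52

theorem A15_c0_t49 : CovD 1 gA15 [(5791547392, 98304000), (68719476736, 68719476736), (3504693313536, 68719476736)] :=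
  covD_split 1 (by decide +kernel) A15_c0_t50 A15_c0_t53

theorem A15_c0_t43 : CovD 1 gA15 [(5693243392, 196608000), (68719476736, 68719476736), (3504693313536, 68719476736)] :=
  covD_split 0 (by decide +kernel) A15_c0_t44 A15_c0_t49

theorem A15_c0_t58 : CovD 1 gA15 [(5988155392, 98304000), (34359738368, 34359738368), (3539053051904, 34359738368)] :=
  covD_split 1 (by decide +kernel) A15_c0_t59 A15_c0_t60

theorem A15_c0_t56 : CovD 1 gA15 [(5988155392, 98304000), (34359738368, 34359738368), (3504693313536, 68719476736)] :=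
  covD_split 2 (by decide +kernel) A15_c0_t57 A15_c0_t58

theorem A15_c0_t55 : CovD 1 gA15 [(5988155392, 98304000), (68719476736, 68719476736), (3504693313536, 68719476736)] :=
  covD_split 1 (by decide +kernel) A15_c0_t56 A15_c0_t61

theorem A15_c0_t65 : CovD 1 gA15 [(6184763392, 98304000), (34359738368, 34359738368), (3539053051904, 34359738368)] :=
  covD_split 2 (by decide +kernel) A15_c0_t66 A15_c0_t67

theorem A15_c0_t63 : CovD 1 gA15 [(6184763392, 98304000), (34359738368, 34359738368), (3504693313536, 68719476736)] :=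
  covD_split 2 (by decide +kernel) A15_c0_t64 A15_c0_t65

theorem A15_c0_t62 : CovD 1 gA15 [(6184763392, 98304000), (68719476736, 68719476736), (3504693313536, 68719476736)] :=
  covD_split 1 (by decide +kernel) A15_c0_t63 A15_c0_t68

theorem A15_c0_t54 : CovD 1 gA15 [(6086459392, 196608000), (68719476736, 68719476736), (3504693313536, 68719476736)] :=
  covD_split 0 (by decide +kernel) A15_c0_t55 A15_c0_t62

theorem A15_c0_t42 : CovD 1 gA15 [(5889851392, 393216000), (68719476736, 68719476736), (3504693313536, 68719476736)] :=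
  covD_split 0 (by decide +kernel) A15_c0_t43 A15_c0_t54

theorem A15_c0_t38 : CovD 1 gA15 [(5889851392, 393216000), (68719476736, 68719476736), (3435973836800, 137438953472)] :=
  covD_split 2 (by decide +kernel) A15_c0_t39 A15_c0_t42

theorem A15_c0_t37 : CovD 1 gA15 [(5889851392, 393216000), (68719476736, 68719476736), (3573412790272, 274877906944)] :=
  covD_split 2 (by decide +kernel) A15_c0_t38 A15_c0_t69

theorem A15_c0_t75 : CovD 1 gA15 [(5693243392, 196608000), (171798691840, 34359738368), (3504693313536, 68719476736)] :=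
  covD_split 0 (by decide +kernel) A15_c0_t76 A15_c0_t77

theorem A15_c0_t73 : CovD 1 gA15 [(5693243392, 196608000), (171798691840, 34359738368), (3435973836800, 137438953472)] :=
  covD_split 2 (by decide +kernel) A15_c0_t74 A15_c0_t75

theorem A15_c0_t82 : CovD 1 gA15 [(5693243392, 196608000), (240518168576, 34359738368), (3539053051904, 34359738368)] :=
  covD_split 0 (by decide +kernel) A15_c0_t83 A15_c0_t84

theorem A15_c0_t80 : CovD 1 gA15 [(5693243392, 196608000), (240518168576, 34359738368), (3504693313536, 68719476736)] :=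
  covD_split 2 (by decide +kernel) A15_c0_t81 A15_c0_t82

theorem A15_c0_t78 : CovD 1 gA15 [(5693243392, 196608000), (240518168576, 34359738368), (3435973836800, 137438953472)] :=
  covD_split 2 (by decide +kernel) A15_c0_t79 A15_c0_t80

theorem A15_c0_t72 : CovD 1 gA15 [(5693243392, 196608000), (206158430208, 68719476736), (3435973836800, 137438953472)] :=
  covD_split 1 (by decide +kernel) A15_c0_t73 A15_c0_t78

theorem A15_c0_t90 : CovD 1 gA15 [(6086459392, 196608000), (171798691840, 34359738368), (3539053051904, 34359738368)] :=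
  covD_split 0 (by decide +kernel) A15_c0_t91 A15_c0_t92

theorem A15_c0_t88 : CovD 1 gA15 [(6086459392, 196608000), (171798691840, 34359738368), (3504693313536, 68719476736)] :=
  covD_split 2 (by decide +kernel) A15_c0_t89 A15_c0_t90

theorem A15_c0_t86 : CovD 1 gA15 [(6086459392, 196608000), (171798691840, 34359738368), (3435973836800, 137438953472)] :=
  covD_split 2 (by decide +kernel) A15_c0_t87 A15_c0_t88

theorem A15_c0_t97 : CovD 1 gA15 [(6086459392, 196608000), (240518168576, 34359738368), (3539053051904, 34359738368)] :=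
  covD_split 0 (by decide +kernel) A15_c0_t98 A15_c0_t99

theorem A15_c0_t95 : CovD 1 gA15 [(6086459392, 196608000), (240518168576, 34359738368), (3504693313536, 68719476736)] :=
  covD_split 2 (by decide +kernel) A15_c0_t96 A15_c0_t97

theorem A15_c0_t93 : CovD 1 gA15 [(6086459392, 196608000), (240518168576, 34359738368), (3435973836800, 137438953472)] :=
  covD_split 2 (by decide +kernel) A15_c0_t94 A15_c0_t95

theorem A15_c0_t85 : CovD 1 gA15 [(6086459392, 196608000), (206158430208, 68719476736), (3435973836800, 137438953472)] :=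
  covD_split 1 (by decide +kernel) A15_c0_t86 A15_c0_t93

theorem A15_c0_t71 : CovD 1 gA15 [(5889851392, 393216000), (206158430208, 68719476736), (3435973836800, 137438953472)] :=
  covD_split 0 (by decide +kernel) A15_c0_t72 A15_c0_t85

theorem A15_c0_t70 : CovD 1 gA15 [(5889851392, 393216000), (206158430208, 68719476736), (3573412790272, 274877906944)] :=
  covD_split 2 (by decide +kernel) A15_c0_t71 A15_c0_t100

theorem A15_c0_t36 : CovD 1 gA15 [(5889851392, 393216000), (137438953472, 137438953472), (3573412790272, 274877906944)] :=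
  covD_split 1 (by decide +kernel) A15_c0_t37 A15_c0_t70

theorem A15_c0_t35 : CovD 1 gA15 [(5889851392, 393216000), (137438953472, 137438953472), (3848290697216, 549755813888)] :=
  covD_split 2 (by decide +kernel) A15_c0_t36 A15_c0_t101

theorem A15_c0_t25 : CovD 1 gA15 [(5889851392, 393216000), (137438953472, 137438953472), (3298534883328, 1099511627776)] :=
  covD_split 2 (by decide +kernel) A15_c0_t26 A15_c0_t35

theorem A15_c0_t1 : CovD 1 gA15 [(5889851392, 393216000), (137438953472, 137438953472), (2199023255552, 2199023255552)] :=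
  covD_split 2 (by decide +kernel) A15_c0_t2 A15_c0_t25

theorem A15_c0 : CovD 1 gA15 [(5889851392, 393216000), (137438953472, 137438953472), (4398046511104, 4398046511104)] :=
  covD_split 2 (by decide +kernel) A15_c0_t1 A15_c0_t102

theorem B15_c0_t1 : CovD 1 gB15 [(5889851392, 393216000), (137438953472, 137438953472), (34359738368, 34359738368)] :=
  covD_split 2 (by decide +kernel) B15_c0_t2 B15_c0_t3

theorem B15_c0 : CovD 1 gB15 [(5889851392, 393216000), (137438953472, 137438953472), (68719476736, 68719476736)] :=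
  covD_split 2 (by decide +kernel) B15_c0_t1 B15_c0_t4

theorem C15_c0_t3 : CovD 1 gC15 [(5889851392, 393216000), (17179869184, 17179869184), (549755813888, 549755813888)] :=
  covD_split 1 (by decide +kernel) C15_c0_t4 C15_c0_t5

theorem C15_c0_t2 : CovD 1 gC15 [(5889851392, 393216000), (34359738368, 34359738368), (549755813888, 549755813888)] :=
  covD_split 1 (by decide +kernel) C15_c0_t3 C15_c0_t6

theorem C15_c0_t1 : CovD 1 gC15 [(5889851392, 393216000), (68719476736, 68719476736), (549755813888, 549755813888)] :=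
  covD_split 1 (by decide +kernel) C15_c0_t2 C15_c0_t7

theorem C15_c0 : CovD 1 gC15 [(5889851392, 393216000), (137438953472, 137438953472), (549755813888, 549755813888)] :=
  covD_split 1 (by decide +kernel) C15_c0_t1 C15_c0_t8

theorem D15_c0_t2 : CovD 1 gD15 [(5889851392, 393216000), (137438953472, 137438953472), (1295415508992, 431805169664)] :=
  covD_split 2 (by decide +kernel) D15_c0_t3 D15_c0_t4

theorem D15_c0 : CovD 1 gD15 [(5889851392, 393216000), (137438953472, 137438953472), (863610339328, 863610339328)] :=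
  covD_split 2 (by decide +kernel) D15_c0_t1 D15_c0_t2

end Pool.Agent.helper14.NS.Q175a
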