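import Pool.Agent.helper14.NS.Q175a.PN15

/-!
Generated: certificates.
-/

namespace Pool.Agent.helper14.NS.Q175a

open Pool.Agent.helper31.IA (Z)
open Pool.Agent.helper31.IX (Op XOps runX Cov CovD cov_split covD_split)
open Pool.Agent.helper31.IC (TD)
open Pool.Agent.helper63.RG (reloc)
open Pool.Agent.helper63.NF hiding TD
open Pool.Agent.helper4.NS
open Pool.Agent.helper14.CF (xE covD_E)
open Pool.Agent.helper14.NR (share)

mutual
theorem E15_c0_t3 : CovD 1 gE15 [(5889851392, 393216000), (137438953472, 137438953472), (107951292416, 107951292416)] :=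
  covD_E kE15_eq (.l 1)
    [(5889851392, 393216000), (137438953472, 137438953472), (107951292416, 107951292416)] rfl (by decide +kernel)
theorem E15_c0_t6 : CovD 1 gE15 [(5693243392, 196608000), (137438953472, 137438953472), (269878231040, 53975646208)] :=
  covD_E kE15_eq (.l 1)
    [(5693243392, 196608000), (137438953472, 137438953472), (269878231040, 53975646208)] rfl (by decide +kernel)
end

mutual
theorem E15_c0_t11 : CovD 1 gE15 [(5594939392, 98304000), (34359738368, 34359738368), (350841700352, 26987823104)] :=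
  covD_E kE15_eq (.n 2 (.n 1 (.n 2 (.n 0 (.n 2 (.n 1 (.l 0) (.l 1)) (.l 0)) (.n 1 (.n 2 (.l 1) (.l 0)) (.l 1))) (.l 0)) (.n 2 (.n 0 (.n 0 (.n 1 (.n 2 (.l 1) (.l 0)) (.l 1)) (.l 1)) (.l 1)) (.n 2 (.n 0 (.l 0) (.l 1)) (.l 0)))) (.l 0))
    [(5594939392, 98304000), (34359738368, 34359738368), (350841700352, 26987823104)] rfl (by decide +kernel)
theorem E15_c0_t12 : CovD 1 gE15 [(5594939392, 98304000), (103079215104, 34359738368), (350841700352, 26987823104)] :=
  covD_E kE15_eq (.n 2 (.n 0 (.n 1 (.n 2 (.l 1) (.n 2 (.l 1) (.l 0))) (.l 1)) (.l 1)) (.n 2 (.n 1 (.n 2 (.l 0) (.l 0)) (.n 0 (.l 0) (.n 2 (.l 1) (.l 0)))) (.l 0)))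
    [(5594939392, 98304000), (103079215104, 34359738368), (350841700352, 26987823104)] rfl (by decide +kernel)
end

mutual
theorem E15_c0_t15 : CovD 1 gE15 [(5791547392, 98304000), (34359738368, 34359738368), (337347788800, 13493911552)] :=
  covD_E kE15_eq (.n 1 (.n 2 (.l 1) (.n 0 (.n 2 (.n 1 (.l 0) (.l 1)) (.l 0)) (.n 1 (.n 2 (.l 1) (.l 0)) (.l 1)))) (.l 1))
    [(5791547392, 98304000), (34359738368, 34359738368), (337347788800, 13493911552)] rfl (by decide +kernel)
theorem E15_c0_t16 : CovD 1 gE15 [(5791547392, 98304000), (34359738368, 34359738368), (364335611904, 13493911552)] :=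
  covD_E kE15_eq (.n 2 (.n 0 (.n 1 (.l 0) (.n 1 (.l 0) (.n 2 (.l 1) (.l 0)))) (.n 1 (.l 0) (.n 0 (.n 1 (.l 0) (.l 1)) (.l 1)))) (.l 0))
    [(5791547392, 98304000), (34359738368, 34359738368), (364335611904, 13493911552)] rfl (by decide +kernel)
end

mutual
theorem E15_c0_t17 : CovD 1 gE15 [(5791547392, 98304000), (103079215104, 34359738368), (350841700352, 26987823104)] :=
  covD_E kE15_eq (.n 2 (.l 1) (.n 0 (.n 0 (.n 2 (.n 1 (.n 2 (.l 1) (.l 0)) (.l 1)) (.l 0)) (.n 2 (.l 1) (.n 1 (.l 0) (.l 0)))) (.n 1 (.n 2 (.l 1) (.n 0 (.l 0) (.n 1 (.l 0) (.l 1)))) (.l 1))))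
    [(5791547392, 98304000), (103079215104, 34359738368), (350841700352, 26987823104)] rfl (by decide +kernel)
theorem E15_c0_t18 : CovD 1 gE15 [(5693243392, 196608000), (68719476736, 68719476736), (404817346560, 26987823104)] :=
  covD_E kE15_eq (.n 2 (.n 0 (.l 0) (.n 1 (.l 0) (.l 0))) (.l 0))
    [(5693243392, 196608000), (68719476736, 68719476736), (404817346560, 26987823104)] rfl (by decide +kernel)
end

mutual
theorem E15_c0_t21 : CovD 1 gE15 [(5693243392, 196608000), (206158430208, 68719476736), (337347788800, 13493911552)] :=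
  covD_E kE15_eq (.l 1)
    [(5693243392, 196608000), (206158430208, 68719476736), (337347788800, 13493911552)] rfl (by decide +kernel)
theorem E15_c0_t23 : CovD 1 gE15 [(5594939392, 98304000), (206158430208, 68719476736), (364335611904, 13493911552)] :=
  covD_E kE15_eq (.n 0 (.n 1 (.n 2 (.n 1 (.n 2 (.l 1) (.l 0)) (.l 1)) (.l 0)) (.n 2 (.l 1) (.n 2 (.n 1 (.l 1) (.l 1)) (.l 0)))) (.n 1 (.n 2 (.l 1) (.n 0 (.l 0) (.n 1 (.l 0) (.l 1)))) (.l 1)))
    [(5594939392, 98304000), (206158430208, 68719476736), (364335611904, 13493911552)] rfl (by decide +kernel)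
end

mutual
theorem E15_c0_t24 : CovD 1 gE15 [(5791547392, 98304000), (206158430208, 68719476736), (364335611904, 13493911552)] :=
  covD_E kE15_eq (.n 0 (.n 0 (.n 1 (.n 2 (.l 1) (.n 2 (.l 1) (.l 0))) (.l 1)) (.l 1)) (.l 1))
    [(5791547392, 98304000), (206158430208, 68719476736), (364335611904, 13493911552)] rfl (by decide +kernel)
theorem E15_c0_t25 : CovD 1 gE15 [(5693243392, 196608000), (206158430208, 68719476736), (404817346560, 26987823104)] :=
  covD_E kE15_eq (.n 2 (.n 1 (.n 0 (.l 0) (.n 0 (.l 0) (.n 2 (.n 2 (.l 1) (.l 0)) (.l 0)))) (.n 2 (.n 0 (.l 0) (.n 0 (.n 1 (.l 0) (.l 1)) (.l 1))) (.n 1 (.l 0) (.l 0)))) (.l 0))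
    [(5693243392, 196608000), (206158430208, 68719476736), (404817346560, 26987823104)] rfl (by decide +kernel)
end

mutual
theorem E15_c0_t27 : CovD 1 gE15 [(6086459392, 196608000), (137438953472, 137438953472), (269878231040, 53975646208)] :=
  covD_E kE15_eq (.l 1)
    [(6086459392, 196608000), (137438953472, 137438953472), (269878231040, 53975646208)] rfl (by decide +kernel)
theorem E15_c0_t32 : CovD 1 gE15 [(6086459392, 196608000), (34359738368, 34359738368), (337347788800, 13493911552)] :=
  covD_E kE15_eq (.l 1)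
    [(6086459392, 196608000), (34359738368, 34359738368), (337347788800, 13493911552)] rfl (by decide +kernel)
end

mutual
theorem E15_c0_t34 : CovD 1 gE15 [(5988155392, 98304000), (34359738368, 34359738368), (364335611904, 13493911552)] :=
  covD_E kE15_eq (.n 0 (.n 1 (.n 2 (.n 1 (.n 2 (.l 1) (.l 0)) (.l 1)) (.l 0)) (.n 2 (.l 1) (.n 0 (.l 0) (.n 1 (.l 0) (.l 1))))) (.n 1 (.n 2 (.l 1) (.n 0 (.l 0) (.n 2 (.l 1) (.l 0)))) (.l 1)))
    [(5988155392, 98304000), (34359738368, 34359738368), (364335611904, 13493911552)] rfl (by decide +kernel)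
theorem E15_c0_t35 : CovD 1 gE15 [(6184763392, 98304000), (34359738368, 34359738368), (364335611904, 13493911552)] :=
  covD_E kE15_eq (.n 0 (.n 0 (.n 1 (.n 2 (.l 1) (.n 2 (.l 1) (.l 0))) (.l 1)) (.l 1)) (.l 1))
    [(6184763392, 98304000), (34359738368, 34359738368), (364335611904, 13493911552)] rfl (by decide +kernel)
end

mutual
theorem E15_c0_t38 : CovD 1 gE15 [(5988155392, 98304000), (34359738368, 34359738368), (391323435008, 13493911552)] :=
  covD_E kE15_eq (.n 1 (.l 0) (.n 2 (.l 0) (.l 0)))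
    [(5988155392, 98304000), (34359738368, 34359738368), (391323435008, 13493911552)] rfl (by decide +kernel)
theorem E15_c0_t39 : CovD 1 gE15 [(6184763392, 98304000), (34359738368, 34359738368), (391323435008, 13493911552)] :=
  covD_E kE15_eq (.n 0 (.n 2 (.n 1 (.l 0) (.n 2 (.l 1) (.n 1 (.l 0) (.l 0)))) (.l 0)) (.n 1 (.n 2 (.n 1 (.n 0 (.l 0) (.n 2 (.l 1) (.l 0))) (.n 2 (.l 1) (.l 0))) (.l 0)) (.n 2 (.l 1) (.n 0 (.l 0) (.n 2 (.l 1) (.l 0))))))
    [(6184763392, 98304000), (34359738368, 34359738368), (391323435008, 13493911552)] rfl (by decide +kernel)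
end

mutual
theorem E15_c0_t40 : CovD 1 gE15 [(6086459392, 196608000), (34359738368, 34359738368), (418311258112, 13493911552)] :=
  covD_E kE15_eq (.l 0)
    [(6086459392, 196608000), (34359738368, 34359738368), (418311258112, 13493911552)] rfl (by decide +kernel)
theorem E15_c0_t42 : CovD 1 gE15 [(6086459392, 196608000), (103079215104, 34359738368), (350841700352, 26987823104)] :=
  covD_E kE15_eq (.l 1)
    [(6086459392, 196608000), (103079215104, 34359738368), (350841700352, 26987823104)] rfl (by decide +kernel)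
end

mutual
theorem E15_c0_t44 : CovD 1 gE15 [(5988155392, 98304000), (103079215104, 34359738368), (404817346560, 26987823104)] :=
  covD_E kE15_eq (.n 2 (.n 1 (.n 0 (.l 0) (.n 2 (.n 2 (.l 1) (.l 0)) (.l 0))) (.n 2 (.n 0 (.n 2 (.l 1) (.l 0)) (.l 1)) (.l 0))) (.l 0))
    [(5988155392, 98304000), (103079215104, 34359738368), (404817346560, 26987823104)] rfl (by decide +kernel)
theorem E15_c0_t45 : CovD 1 gE15 [(6184763392, 98304000), (103079215104, 34359738368), (404817346560, 26987823104)] :=
  covD_E kE15_eq (.n 2 (.n 2 (.l 1) (.n 0 (.n 0 (.n 1 (.l 0) (.n 1 (.l 0) (.l 1))) (.n 1 (.n 2 (.l 1) (.l 0)) (.l 1))) (.n 0 (.n 1 (.n 2 (.l 1) (.l 0)) (.l 1)) (.l 1)))) (.n 0 (.l 0) (.n 2 (.n 1 (.l 0) (.n 2 (.l 1) (.l 0))) (.l 0))))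
    [(6184763392, 98304000), (103079215104, 34359738368), (404817346560, 26987823104)] rfl (by decide +kernel)
end

mutual
theorem E15_c0_t47 : CovD 1 gE15 [(6086459392, 196608000), (206158430208, 68719476736), (350841700352, 26987823104)] :=
  covD_E kE15_eq (.l 1)
    [(6086459392, 196608000), (206158430208, 68719476736), (350841700352, 26987823104)] rfl (by decide +kernel)
theorem E15_c0_t49 : CovD 1 gE15 [(5988155392, 98304000), (206158430208, 68719476736), (404817346560, 26987823104)] :=
  covD_E kE15_eq (.n 1 (.n 2 (.n 2 (.l 1) (.n 2 (.n 0 (.l 0) (.l 1)) (.n 1 (.l 0) (.l 0)))) (.l 0)) (.n 2 (.n 1 (.l 1) (.l 1)) (.n 0 (.l 0) (.n 2 (.n 1 (.l 0) (.l 1)) (.l 0)))))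
    [(5988155392, 98304000), (206158430208, 68719476736), (404817346560, 26987823104)] rfl (by decide +kernel)
end

mutual
theorem E15_c0_t50 : CovD 1 gE15 [(6184763392, 98304000), (206158430208, 68719476736), (404817346560, 26987823104)] :=
  covD_E kE15_eq (.n 2 (.l 1) (.n 0 (.n 1 (.n 2 (.n 1 (.l 0) (.n 0 (.l 0) (.l 1))) (.l 0)) (.n 2 (.l 1) (.l 0))) (.n 2 (.l 1) (.n 1 (.n 1 (.l 0) (.l 0)) (.n 0 (.n 1 (.l 0) (.l 1)) (.l 1))))))
    [(6184763392, 98304000), (206158430208, 68719476736), (404817346560, 26987823104)] rfl (by decide +kernel)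
theorem E15_c0_t53 : CovD 1 gE15 [(5889851392, 393216000), (137438953472, 137438953472), (485780815872, 53975646208)] :=
  covD_E kE15_eq (.n 1 (.n 2 (.n 2 (.n 0 (.l 0) (.l 0)) (.l 0)) (.n 2 (.l 0) (.l 0))) (.n 2 (.n 2 (.n 0 (.l 0) (.n 0 (.l 0) (.n 1 (.l 0) (.l 0)))) (.l 0)) (.n 2 (.l 0) (.l 0))))
    [(5889851392, 393216000), (137438953472, 137438953472), (485780815872, 53975646208)] rfl (by decide +kernel)
end

mutual
theorem E15_c0_t54 : CovD 1 gE15 [(5889851392, 393216000), (137438953472, 137438953472), (593732108288, 53975646208)] :=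
  covD_E kE15_eq (.n 2 (.n 2 (.n 0 (.l 0) (.l 0)) (.l 0)) (.n 2 (.l 0) (.l 0)))
    [(5889851392, 393216000), (137438953472, 137438953472), (593732108288, 53975646208)] rfl (by decide +kernel)
theorem E15_c0_t55 : CovD 1 gE15 [(5889851392, 393216000), (137438953472, 137438953472), (755659046912, 107951292416)] :=
  covD_E kE15_eq (.n 2 (.n 2 (.n 2 (.l 0) (.l 0)) (.n 2 (.l 0) (.l 0))) (.n 2 (.n 2 (.l 0) (.l 0)) (.n 2 (.l 0) (.l 0))))
    [(5889851392, 393216000), (137438953472, 137438953472), (755659046912, 107951292416)] rfl (by decide +kernel)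
end

mutual
theorem E15_c0_t57 : CovD 1 gE15 [(5889851392, 393216000), (137438953472, 137438953472), (1079512924160, 215902584832)] :=
  covD_E kE15_eq (.n 2 (.n 2 (.n 2 (.n 2 (.l 0) (.l 0)) (.n 2 (.l 0) (.l 0))) (.n 2 (.n 2 (.l 0) (.l 0)) (.n 0 (.l 0) (.l 0)))) (.n 2 (.n 2 (.l 0) (.l 0)) (.n 2 (.l 0) (.l 0))))
    [(5889851392, 393216000), (137438953472, 137438953472), (1079512924160, 215902584832)] rfl (by decide +kernel)
theorem E15_c0_t58 : CovD 1 gE15 [(5889851392, 393216000), (137438953472, 137438953472), (1511318093824, 215902584832)] :=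
  covD_E kE15_eq (.n 2 (.n 2 (.n 2 (.l 0) (.l 0)) (.n 2 (.l 0) (.l 0))) (.n 2 (.n 2 (.l 0) (.l 0)) (.n 2 (.l 0) (.l 0))))
    [(5889851392, 393216000), (137438953472, 137438953472), (1511318093824, 215902584832)] rfl (by decide +kernel)
end

theorem E15_c0_t10 : CovD 1 gE15 [(5594939392, 98304000), (68719476736, 68719476736), (350841700352, 26987823104)] :=
  covD_split 1 (by decide +kernel) E15_c0_t11 E15_c0_t12

theorem E15_c0_t14 : CovD 1 gE15 [(5791547392, 98304000), (34359738368, 34359738368), (350841700352, 26987823104)] :=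
  covD_split 2 (by decide +kernel) E15_c0_t15 E15_c0_t16

theorem E15_c0_t13 : CovD 1 gE15 [(5791547392, 98304000), (68719476736, 68719476736), (350841700352, 26987823104)] :=
  covD_split 1 (by decide +kernel) E15_c0_t14 E15_c0_t17

theorem E15_c0_t9 : CovD 1 gE15 [(5693243392, 196608000), (68719476736, 68719476736), (350841700352, 26987823104)] :=
  covD_split 0 (by decide +kernel) E15_c0_t10 E15_c0_t13

theorem E15_c0_t8 : CovD 1 gE15 [(5693243392, 196608000), (68719476736, 68719476736), (377829523456, 53975646208)] :=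
  covD_split 2 (by decide +kernel) E15_c0_t9 E15_c0_t18

theorem E15_c0_t22 : CovD 1 gE15 [(5693243392, 196608000), (206158430208, 68719476736), (364335611904, 13493911552)] :=
  covD_split 0 (by decide +kernel) E15_c0_t23 E15_c0_t24

theorem E15_c0_t20 : CovD 1 gE15 [(5693243392, 196608000), (206158430208, 68719476736), (350841700352, 26987823104)] :=
  covD_split 2 (by decide +kernel) E15_c0_t21 E15_c0_t22

theorem E15_c0_t19 : CovD 1 gE15 [(5693243392, 196608000), (206158430208, 68719476736), (377829523456, 53975646208)] :=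
  covD_split 2 (by decide +kernel) E15_c0_t20 E15_c0_t25

theorem E15_c0_t7 : CovD 1 gE15 [(5693243392, 196608000), (137438953472, 137438953472), (377829523456, 53975646208)] :=
  covD_split 1 (by decide +kernel) E15_c0_t8 E15_c0_t19

theorem E15_c0_t5 : CovD 1 gE15 [(5693243392, 196608000), (137438953472, 137438953472), (323853877248, 107951292416)] :=
  covD_split 2 (by decide +kernel) E15_c0_t6 E15_c0_t7

theorem E15_c0_t33 : CovD 1 gE15 [(6086459392, 196608000), (34359738368, 34359738368), (364335611904, 13493911552)] :=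
  covD_split 0 (by decide +kernel) E15_c0_t34 E15_c0_t35

theorem E15_c0_t31 : CovD 1 gE15 [(6086459392, 196608000), (34359738368, 34359738368), (350841700352, 26987823104)] :=
  covD_split 2 (by decide +kernel) E15_c0_t32 E15_c0_t33

theorem E15_c0_t37 : CovD 1 gE15 [(6086459392, 196608000), (34359738368, 34359738368), (391323435008, 13493911552)] :=
  covD_split 0 (by decide +kernel) E15_c0_t38 E15_c0_t39

theorem E15_c0_t36 : CovD 1 gE15 [(6086459392, 196608000), (34359738368, 34359738368), (404817346560, 26987823104)] :=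
  covD_split 2 (by decide +kernel) E15_c0_t37 E15_c0_t40

theorem E15_c0_t30 : CovD 1 gE15 [(6086459392, 196608000), (34359738368, 34359738368), (377829523456, 53975646208)] :=
  covD_split 2 (by decide +kernel) E15_c0_t31 E15_c0_t36

theorem E15_c0_t43 : CovD 1 gE15 [(6086459392, 196608000), (103079215104, 34359738368), (404817346560, 26987823104)] :=
  covD_split 0 (by decide +kernel) E15_c0_t44 E15_c0_t45

theorem E15_c0_t41 : CovD 1 gE15 [(6086459392, 196608000), (103079215104, 34359738368), (377829523456, 53975646208)] :=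
  covD_split 2 (by decide +kernel) E15_c0_t42 E15_c0_t43

theorem E15_c0_t29 : CovD 1 gE15 [(6086459392, 196608000), (68719476736, 68719476736), (377829523456, 53975646208)] :=
  covD_split 1 (by decide +kernel) E15_c0_t30 E15_c0_t41

theorem E15_c0_t48 : CovD 1 gE15 [(6086459392, 196608000), (206158430208, 68719476736), (404817346560, 26987823104)] :=
  covD_split 0 (by decide +kernel) E15_c0_t49 E15_c0_t50

theorem E15_c0_t46 : CovD 1 gE15 [(6086459392, 196608000), (206158430208, 68719476736), (377829523456, 53975646208)] :=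
  covD_split 2 (by decide +kernel) E15_c0_t47 E15_c0_t48

theorem E15_c0_t28 : CovD 1 gE15 [(6086459392, 196608000), (137438953472, 137438953472), (377829523456, 53975646208)] :=
  covD_split 1 (by decide +kernel) E15_c0_t29 E15_c0_t46

theorem E15_c0_t26 : CovD 1 gE15 [(6086459392, 196608000), (137438953472, 137438953472), (323853877248, 107951292416)] :=
  covD_split 2 (by decide +kernel) E15_c0_t27 E15_c0_t28

theorem E15_c0_t4 : CovD 1 gE15 [(5889851392, 393216000), (137438953472, 137438953472), (323853877248, 107951292416)] :=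
  covD_split 0 (by decide +kernel) E15_c0_t5 E15_c0_t26

theorem E15_c0_t2 : CovD 1 gE15 [(5889851392, 393216000), (137438953472, 137438953472), (215902584832, 215902584832)] :=
  covD_split 2 (by decide +kernel) E15_c0_t3 E15_c0_t4

theorem E15_c0_t52 : CovD 1 gE15 [(5889851392, 393216000), (137438953472, 137438953472), (539756462080, 107951292416)] :=
  covD_split 2 (by decide +kernel) E15_c0_t53 E15_c0_t54

theorem E15_c0_t51 : CovD 1 gE15 [(5889851392, 393216000), (137438953472, 137438953472), (647707754496, 215902584832)] :=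
  covD_split 2 (by decide +kernel) E15_c0_t52 E15_c0_t55

theorem E15_c0_t1 : CovD 1 gE15 [(5889851392, 393216000), (137438953472, 137438953472), (431805169664, 431805169664)] :=
  covD_split 2 (by decide +kernel) E15_c0_t2 E15_c0_t51

theorem E15_c0_t56 : CovD 1 gE15 [(5889851392, 393216000), (137438953472, 137438953472), (1295415508992, 431805169664)] :=
  covD_split 2 (by decide +kernel) E15_c0_t57 E15_c0_t58

theorem E15_c0 : CovD 1 gE15 [(5889851392, 393216000), (137438953472, 137438953472), (863610339328, 863610339328)] :=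
  covD_split 2 (by decide +kernel) E15_c0_t1 E15_c0_t56

end Pool.Agent.helper14.NS.Q175a
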