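import Pool.Agent.helper14.NS.Q175a.PN7

/-!
Generated: certificates.
-/

namespace Pool.Agent.helper14.NS.Q175a

open Pool.Agent.helper31.IA (Z)
open Pool.Agent.helper31.IX (Op XOps runX Cov CovD cov_split covD_split)
open Pool.Agent.helper31.IC (TD)
open Pool.Agent.helper63.RG (reloc)
open Pool.Agent.helper63.NF hiding TD
open Pool.Agent.helper4.NS
open Pool.Agent.helper14.CF (xE covD_E)
open Pool.Agent.helper14.NR (share)

mutual
theorem A7_c0_t6 : CovD 1 gA7 [(5889851392, 393216000), (137438953472, 137438953472), (68719476736, 68719476736)] :=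
  covD_E kA7_eq (.n 2 (.l 2) (.n 1 (.n 2 (.l 2) (.n 1 (.n 2 (.l 2) (.n 1 (.n 1 (.l 0) (.l 0)) (.l 0))) (.l 0))) (.l 0)))
    [(5889851392, 393216000), (137438953472, 137438953472), (68719476736, 68719476736)] rfl (by decide +kernel)
theorem A7_c0_t9 : CovD 1 gA7 [(5889851392, 393216000), (34359738368, 34359738368), (206158430208, 68719476736)] :=
  covD_E kA7_eq (.n 1 (.n 1 (.n 2 (.n 2 (.n 0 (.l 0) (.l 0)) (.l 0)) (.n 0 (.l 0) (.l 0))) (.n 2 (.n 2 (.n 1 (.l 0) (.l 0)) (.l 0)) (.l 0))) (.n 1 (.n 2 (.n 2 (.l 0) (.l 0)) (.n 0 (.l 0) (.l 0))) (.n 2 (.n 1 (.l 0) (.l 0)) (.l 0))))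
    [(5889851392, 393216000), (34359738368, 34359738368), (206158430208, 68719476736)] rfl (by decide +kernel)
end

mutual
theorem A7_c0_t10 : CovD 1 gA7 [(5889851392, 393216000), (103079215104, 34359738368), (206158430208, 68719476736)] :=
  covD_E kA7_eq (.n 1 (.n 1 (.n 2 (.l 0) (.l 0)) (.n 2 (.l 0) (.l 0))) (.n 2 (.l 0) (.l 0)))
    [(5889851392, 393216000), (103079215104, 34359738368), (206158430208, 68719476736)] rfl (by decide +kernel)
theorem A7_c0_t11 : CovD 1 gA7 [(5889851392, 393216000), (206158430208, 68719476736), (206158430208, 68719476736)] :=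
  covD_E kA7_eq (.n 1 (.n 1 (.l 0) (.l 0)) (.l 0))
    [(5889851392, 393216000), (206158430208, 68719476736), (206158430208, 68719476736)] rfl (by decide +kernel)
end

mutual
theorem A7_c0_t14 : CovD 1 gA7 [(5889851392, 393216000), (34359738368, 34359738368), (412316860416, 137438953472)] :=
  covD_E kA7_eq (.n 1 (.n 2 (.n 2 (.n 1 (.l 0) (.l 0)) (.l 0)) (.n 2 (.l 0) (.l 0))) (.n 2 (.n 2 (.n 1 (.l 0) (.l 0)) (.l 0)) (.n 2 (.l 0) (.l 0))))
    [(5889851392, 393216000), (34359738368, 34359738368), (412316860416, 137438953472)] rfl (by decide +kernel)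
theorem A7_c0_t15 : CovD 1 gA7 [(5889851392, 393216000), (103079215104, 34359738368), (412316860416, 137438953472)] :=
  covD_E kA7_eq (.n 1 (.n 2 (.n 2 (.l 0) (.l 0)) (.n 1 (.l 0) (.l 0))) (.n 2 (.n 2 (.l 0) (.l 0)) (.n 0 (.l 0) (.l 0))))
    [(5889851392, 393216000), (103079215104, 34359738368), (412316860416, 137438953472)] rfl (by decide +kernel)
end

mutual
theorem A7_c0_t16 : CovD 1 gA7 [(5889851392, 393216000), (206158430208, 68719476736), (412316860416, 137438953472)] :=
  covD_E kA7_eq (.n 1 (.n 2 (.n 2 (.l 0) (.l 0)) (.n 2 (.l 0) (.l 0))) (.n 2 (.l 0) (.n 0 (.l 0) (.l 0))))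
    [(5889851392, 393216000), (206158430208, 68719476736), (412316860416, 137438953472)] rfl (by decide +kernel)
theorem A7_c0_t18 : CovD 1 gA7 [(5889851392, 393216000), (68719476736, 68719476736), (824633720832, 274877906944)] :=
  covD_E kA7_eq (.n 1 (.n 2 (.n 2 (.n 1 (.n 0 (.l 0) (.l 0)) (.l 0)) (.l 0)) (.n 2 (.l 0) (.l 0))) (.n 2 (.n 2 (.n 2 (.n 0 (.l 0) (.l 0)) (.l 0)) (.n 1 (.l 0) (.l 0))) (.n 2 (.l 0) (.l 0))))
    [(5889851392, 393216000), (68719476736, 68719476736), (824633720832, 274877906944)] rfl (by decide +kernel)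
end

mutual
theorem A7_c0_t19 : CovD 1 gA7 [(5889851392, 393216000), (206158430208, 68719476736), (824633720832, 274877906944)] :=
  covD_E kA7_eq (.n 1 (.n 2 (.n 1 (.n 2 (.l 0) (.l 0)) (.n 2 (.l 0) (.l 0))) (.n 2 (.l 0) (.l 0))) (.n 2 (.n 2 (.n 0 (.l 0) (.l 0)) (.l 0)) (.n 2 (.n 0 (.l 0) (.l 0)) (.l 0))))
    [(5889851392, 393216000), (206158430208, 68719476736), (824633720832, 274877906944)] rfl (by decide +kernel)
theorem A7_c0_t21 : CovD 1 gA7 [(5889851392, 393216000), (68719476736, 68719476736), (1649267441664, 549755813888)] :=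
  covD_E kA7_eq (.n 2 (.n 2 (.n 1 (.n 2 (.l 0) (.l 0)) (.n 2 (.l 0) (.l 0))) (.n 2 (.n 0 (.l 0) (.l 0)) (.l 0))) (.n 2 (.n 2 (.l 0) (.l 0)) (.n 2 (.l 0) (.l 0))))
    [(5889851392, 393216000), (68719476736, 68719476736), (1649267441664, 549755813888)] rfl (by decide +kernel)
end

mutual
theorem A7_c0_t22 : CovD 1 gA7 [(5889851392, 393216000), (206158430208, 68719476736), (1649267441664, 549755813888)] :=
  covD_E kA7_eq (.n 2 (.n 2 (.n 2 (.n 0 (.l 0) (.l 0)) (.l 0)) (.n 2 (.l 0) (.l 0))) (.n 2 (.n 2 (.l 0) (.l 0)) (.n 2 (.l 0) (.l 0))))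
    [(5889851392, 393216000), (206158430208, 68719476736), (1649267441664, 549755813888)] rfl (by decide +kernel)
theorem A7_c0_t26 : CovD 1 gA7 [(5889851392, 393216000), (68719476736, 68719476736), (2473901162496, 274877906944)] :=
  covD_E kA7_eq (.n 2 (.n 2 (.l 0) (.l 0)) (.n 2 (.l 0) (.l 0)))
    [(5889851392, 393216000), (68719476736, 68719476736), (2473901162496, 274877906944)] rfl (by decide +kernel)
end

mutual
theorem A7_c0_t28 : CovD 1 gA7 [(5889851392, 393216000), (68719476736, 68719476736), (2886218022912, 137438953472)] :=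
  covD_E kA7_eq (.n 2 (.l 0) (.l 0))
    [(5889851392, 393216000), (68719476736, 68719476736), (2886218022912, 137438953472)] rfl (by decide +kernel)
theorem A7_c0_t30 : CovD 1 gA7 [(5889851392, 393216000), (68719476736, 68719476736), (3092376453120, 68719476736)] :=
  covD_E kA7_eq (.l 0)
    [(5889851392, 393216000), (68719476736, 68719476736), (3092376453120, 68719476736)] rfl (by decide +kernel)
end

mutual
theorem A7_c0_t32 : CovD 1 gA7 [(5889851392, 393216000), (68719476736, 68719476736), (3195455668224, 34359738368)] :=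
  covD_E kA7_eq (.l 0)
    [(5889851392, 393216000), (68719476736, 68719476736), (3195455668224, 34359738368)] rfl (by decide +kernel)
theorem A7_c0_t34 : CovD 1 gA7 [(5693243392, 196608000), (68719476736, 68719476736), (3264175144960, 34359738368)] :=
  covD_E kA7_eq (.n 1 (.n 0 (.n 2 (.l 0) (.n 0 (.l 1) (.l 1))) (.n 2 (.l 0) (.n 1 (.l 1) (.l 1)))) (.n 2 (.l 0) (.n 0 (.n 0 (.l 1) (.l 1)) (.n 0 (.l 1) (.l 1)))))
    [(5693243392, 196608000), (68719476736, 68719476736), (3264175144960, 34359738368)] rfl (by decide +kernel)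
end

mutual
theorem A7_c0_t35 : CovD 1 gA7 [(6086459392, 196608000), (68719476736, 68719476736), (3264175144960, 34359738368)] :=
  covD_E kA7_eq (.n 1 (.n 0 (.n 2 (.l 0) (.n 1 (.l 1) (.l 1))) (.n 2 (.l 0) (.n 1 (.l 1) (.l 1)))) (.n 2 (.l 0) (.n 0 (.n 1 (.l 1) (.l 1)) (.n 1 (.l 1) (.l 1)))))
    [(6086459392, 196608000), (68719476736, 68719476736), (3264175144960, 34359738368)] rfl (by decide +kernel)
theorem A7_c0_t37 : CovD 1 gA7 [(5889851392, 393216000), (206158430208, 68719476736), (2473901162496, 274877906944)] :=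
  covD_E kA7_eq (.n 2 (.n 2 (.l 0) (.l 0)) (.n 2 (.l 0) (.l 0)))
    [(5889851392, 393216000), (206158430208, 68719476736), (2473901162496, 274877906944)] rfl (by decide +kernel)
end

mutual
theorem A7_c0_t39 : CovD 1 gA7 [(5889851392, 393216000), (206158430208, 68719476736), (2886218022912, 137438953472)] :=
  covD_E kA7_eq (.n 2 (.l 0) (.l 0))
    [(5889851392, 393216000), (206158430208, 68719476736), (2886218022912, 137438953472)] rfl (by decide +kernel)
theorem A7_c0_t41 : CovD 1 gA7 [(5889851392, 393216000), (206158430208, 68719476736), (3092376453120, 68719476736)] :=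
  covD_E kA7_eq (.l 0)
    [(5889851392, 393216000), (206158430208, 68719476736), (3092376453120, 68719476736)] rfl (by decide +kernel)
end

mutual
theorem A7_c0_t43 : CovD 1 gA7 [(5889851392, 393216000), (206158430208, 68719476736), (3195455668224, 34359738368)] :=
  covD_E kA7_eq (.l 0)
    [(5889851392, 393216000), (206158430208, 68719476736), (3195455668224, 34359738368)] rfl (by decide +kernel)
theorem A7_c0_t45 : CovD 1 gA7 [(5889851392, 393216000), (171798691840, 34359738368), (3264175144960, 34359738368)] :=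
  covD_E kA7_eq (.n 2 (.n 0 (.l 0) (.l 0)) (.n 2 (.n 0 (.n 0 (.l 1) (.n 0 (.l 1) (.l 1))) (.n 0 (.n 0 (.l 1) (.l 1)) (.n 1 (.l 1) (.n 0 (.l 1) (.l 1))))) (.l 1)))
    [(5889851392, 393216000), (171798691840, 34359738368), (3264175144960, 34359738368)] rfl (by decide +kernel)
end

mutual
theorem A7_c0_t46 : CovD 1 gA7 [(5889851392, 393216000), (240518168576, 34359738368), (3264175144960, 34359738368)] :=
  covD_E kA7_eq (.n 0 (.n 2 (.l 0) (.n 0 (.n 0 (.l 1) (.l 1)) (.n 0 (.l 1) (.n 0 (.l 1) (.l 1))))) (.n 2 (.l 0) (.n 0 (.n 0 (.n 0 (.l 1) (.l 1)) (.n 1 (.l 1) (.l 1))) (.n 0 (.n 1 (.l 1) (.l 1)) (.n 1 (.l 1) (.l 1))))))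
    [(5889851392, 393216000), (240518168576, 34359738368), (3264175144960, 34359738368)] rfl (by decide +kernel)
theorem A7_c0_t47 : CovD 1 gA7 [(5889851392, 393216000), (137438953472, 137438953472), (3848290697216, 549755813888)] :=
  covD_E kA7_eq (.n 2 (.n 2 (.n 2 (.n 1 (.l 1) (.l 1)) (.l 1)) (.l 1)) (.l 1))
    [(5889851392, 393216000), (137438953472, 137438953472), (3848290697216, 549755813888)] rfl (by decide +kernel)
end

mutual
theorem A7_c0_t48 : CovD 1 gA7 [(5889851392, 393216000), (137438953472, 137438953472), (6597069766656, 2199023255552)] :=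
  covD_E kA7_eq (.n 2 (.n 2 (.l 1) (.l 1)) (.n 0 (.l 1) (.l 1)))
    [(5889851392, 393216000), (137438953472, 137438953472), (6597069766656, 2199023255552)] rfl (by decide +kernel)
theorem B7_c0_t4 : CovD 1 gB7 [(5889851392, 393216000), (68719476736, 68719476736), (8589934592, 8589934592)] :=
  covD_E kB7_eq (.n 2 (.n 0 (.n 2 (.n 2 (.l 1) (.l 1)) (.n 2 (.l 1) (.l 1))) (.n 1 (.n 2 (.l 1) (.l 1)) (.n 2 (.l 1) (.l 1)))) (.n 2 (.n 2 (.l 1) (.l 1)) (.n 2 (.l 1) (.l 1))))
    [(5889851392, 393216000), (68719476736, 68719476736), (8589934592, 8589934592)] rfl (by decide +kernel)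
end

mutual
theorem B7_c0_t5 : CovD 1 gB7 [(5889851392, 393216000), (68719476736, 68719476736), (25769803776, 8589934592)] :=
  covD_E kB7_eq (.n 2 (.n 2 (.n 0 (.l 1) (.l 1)) (.l 1)) (.n 2 (.l 1) (.l 1)))
    [(5889851392, 393216000), (68719476736, 68719476736), (25769803776, 8589934592)] rfl (by decide +kernel)
theorem B7_c0_t6 : CovD 1 gB7 [(5889851392, 393216000), (206158430208, 68719476736), (17179869184, 17179869184)] :=
  covD_E kB7_eq (.n 2 (.n 2 (.n 0 (.n 2 (.l 1) (.l 1)) (.n 2 (.l 1) (.l 1))) (.n 2 (.l 1) (.l 1))) (.n 2 (.n 2 (.l 1) (.l 1)) (.n 0 (.l 1) (.l 1))))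
    [(5889851392, 393216000), (206158430208, 68719476736), (17179869184, 17179869184)] rfl (by decide +kernel)
end

mutual
theorem B7_c0_t7 : CovD 1 gB7 [(5889851392, 393216000), (137438953472, 137438953472), (51539607552, 17179869184)] :=
  covD_E kB7_eq (.n 2 (.n 2 (.n 2 (.l 1) (.l 1)) (.n 0 (.l 1) (.l 1))) (.n 2 (.l 1) (.l 1)))
    [(5889851392, 393216000), (137438953472, 137438953472), (51539607552, 17179869184)] rfl (by decide +kernel)
theorem B7_c0_t8 : CovD 1 gB7 [(5889851392, 393216000), (137438953472, 137438953472), (103079215104, 34359738368)] :=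
  covD_E kB7_eq (.n 2 (.n 2 (.n 0 (.l 1) (.l 1)) (.l 1)) (.n 2 (.l 1) (.l 1)))
    [(5889851392, 393216000), (137438953472, 137438953472), (103079215104, 34359738368)] rfl (by decide +kernel)
end

mutual
theorem C7_c0_t4 : CovD 1 gC7 [(5889851392, 393216000), (17179869184, 17179869184), (274877906944, 274877906944)] :=
  covD_E kC7_eq (.n 2 (.n 2 (.l 0) (.l 0)) (.n 2 (.l 0) (.l 0)))
    [(5889851392, 393216000), (17179869184, 17179869184), (274877906944, 274877906944)] rfl (by decide +kernel)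
theorem C7_c0_t5 : CovD 1 gC7 [(5889851392, 393216000), (17179869184, 17179869184), (824633720832, 274877906944)] :=
  covD_E kC7_eq (.n 1 (.n 2 (.n 2 (.l 0) (.l 0)) (.n 2 (.l 0) (.n 2 (.l 0) (.n 2 (.l 0) (.n 2 (.l 0) (.n 2 (.l 0) (.n 2 (.l 0) (.n 2 (.l 0) (.l 1))))))))) (.n 2 (.l 0) (.n 1 (.l 0) (.l 0))))
    [(5889851392, 393216000), (17179869184, 17179869184), (824633720832, 274877906944)] rfl (by decide +kernel)
end

mutual
theorem C7_c0_t6 : CovD 1 gC7 [(5889851392, 393216000), (51539607552, 17179869184), (549755813888, 549755813888)] :=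
  covD_E kC7_eq (.n 2 (.n 2 (.l 0) (.l 0)) (.n 2 (.l 0) (.n 1 (.l 0) (.l 0))))
    [(5889851392, 393216000), (51539607552, 17179869184), (549755813888, 549755813888)] rfl (by decide +kernel)
theorem C7_c0_t7 : CovD 1 gC7 [(5889851392, 393216000), (103079215104, 34359738368), (549755813888, 549755813888)] :=
  covD_E kC7_eq (.n 2 (.n 2 (.l 0) (.l 0)) (.n 2 (.l 0) (.l 0)))
    [(5889851392, 393216000), (103079215104, 34359738368), (549755813888, 549755813888)] rfl (by decide +kernel)
end

mutual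
theorem C7_c0_t8 : CovD 1 gC7 [(5889851392, 393216000), (206158430208, 68719476736), (549755813888, 549755813888)] :=
  covD_E kC7_eq (.n 2 (.n 2 (.l 0) (.l 0)) (.n 2 (.l 0) (.l 0)))
    [(5889851392, 393216000), (206158430208, 68719476736), (549755813888, 549755813888)] rfl (by decide +kernel)
theorem D7_c0_t1 : CovD 1 gD7 [(5889851392, 393216000), (137438953472, 137438953472), (431805169664, 431805169664)] :=
  covD_E kD7_eq (.n 2 (.n 2 (.n 2 (.n 2 (.l 0) (.l 0)) (.n 2 (.l 0) (.l 0))) (.n 2 (.n 2 (.l 0) (.l 0)) (.n 2 (.l 0) (.l 0)))) (.n 2 (.n 2 (.n 2 (.l 0) (.l 0)) (.n 2 (.l 0) (.l 0))) (.n 2 (.n 2 (.l 0) (.l 0)) (.n 2 (.l 0) (.l 0)))))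
    [(5889851392, 393216000), (137438953472, 137438953472), (431805169664, 431805169664)] rfl (by decide +kernel)
end

mutual
theorem D7_c0_t2 : CovD 1 gD7 [(5889851392, 393216000), (137438953472, 137438953472), (1295415508992, 431805169664)] :=
  covD_E kD7_eq (.n 2 (.n 2 (.n 2 (.n 2 (.l 0) (.l 0)) (.n 2 (.l 0) (.l 0))) (.n 2 (.n 2 (.l 0) (.l 0)) (.n 2 (.l 0) (.l 0)))) (.n 2 (.n 2 (.n 2 (.l 0) (.l 0)) (.n 2 (.l 0) (.l 0))) (.n 2 (.n 2 (.l 0) (.l 0)) (.n 2 (.l 0) (.l 0)))))
    [(5889851392, 393216000), (137438953472, 137438953472), (1295415508992, 431805169664)] rfl (by decide +kernel)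
theorem E7_c0_t2 : CovD 1 gE7 [(5889851392, 393216000), (137438953472, 137438953472), (215902584832, 215902584832)] :=
  covD_E kE7_eq (.n 2 (.n 2 (.n 0 (.l 1) (.l 1)) (.n 2 (.n 2 (.l 0) (.l 0)) (.n 2 (.l 0) (.l 0)))) (.n 2 (.n 2 (.n 2 (.l 0) (.l 0)) (.n 2 (.l 0) (.l 0))) (.n 2 (.n 2 (.l 0) (.l 0)) (.n 2 (.l 0) (.l 0)))))
    [(5889851392, 393216000), (137438953472, 137438953472), (215902584832, 215902584832)] rfl (by decide +kernel)
end

mutual
theorem E7_c0_t3 : CovD 1 gE7 [(5889851392, 393216000), (137438953472, 137438953472), (647707754496, 215902584832)] :=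
  covD_E kE7_eq (.n 2 (.n 2 (.n 2 (.n 2 (.l 0) (.l 0)) (.n 2 (.l 0) (.l 0))) (.n 2 (.n 2 (.l 0) (.l 0)) (.n 2 (.l 0) (.l 0)))) (.n 2 (.n 2 (.n 2 (.l 0) (.l 0)) (.n 2 (.l 0) (.l 0))) (.n 2 (.l 0) (.l 0))))
    [(5889851392, 393216000), (137438953472, 137438953472), (647707754496, 215902584832)] rfl (by decide +kernel)
theorem E7_c0_t4 : CovD 1 gE7 [(5889851392, 393216000), (137438953472, 137438953472), (1295415508992, 431805169664)] :=
  covD_E kE7_eq (.n 2 (.n 2 (.n 2 (.n 2 (.l 0) (.l 0)) (.n 2 (.l 0) (.l 0))) (.n 2 (.n 2 (.l 0) (.l 0)) (.n 2 (.l 0) (.l 0)))) (.n 2 (.n 2 (.n 2 (.l 0) (.l 0)) (.n 2 (.l 0) (.l 0))) (.n 2 (.n 2 (.l 0) (.l 0)) (.n 2 (.l 0) (.l 0)))))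
    [(5889851392, 393216000), (137438953472, 137438953472), (1295415508992, 431805169664)] rfl (by decide +kernel)
end

theorem A7_c0_t8 : CovD 1 gA7 [(5889851392, 393216000), (68719476736, 68719476736), (206158430208, 68719476736)] :=
  covD_split 1 (by decide +kernel) A7_c0_t9 A7_c0_t10

theorem A7_c0_t7 : CovD 1 gA7 [(5889851392, 393216000), (137438953472, 137438953472), (206158430208, 68719476736)] :=
  covD_split 1 (by decide +kernel) A7_c0_t8 A7_c0_t11

theorem A7_c0_t5 : CovD 1 gA7 [(5889851392, 393216000), (137438953472, 137438953472), (137438953472, 137438953472)] :=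
  covD_split 2 (by decide +kernel) A7_c0_t6 A7_c0_t7

theorem A7_c0_t13 : CovD 1 gA7 [(5889851392, 393216000), (68719476736, 68719476736), (412316860416, 137438953472)] :=
  covD_split 1 (by decide +kernel) A7_c0_t14 A7_c0_t15

theorem A7_c0_t12 : CovD 1 gA7 [(5889851392, 393216000), (137438953472, 137438953472), (412316860416, 137438953472)] :=
  covD_split 1 (by decide +kernel) A7_c0_t13 A7_c0_t16

theorem A7_c0_t4 : CovD 1 gA7 [(5889851392, 393216000), (137438953472, 137438953472), (274877906944, 274877906944)] :=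
  covD_split 2 (by decide +kernel) A7_c0_t5 A7_c0_t12

theorem A7_c0_t17 : CovD 1 gA7 [(5889851392, 393216000), (137438953472, 137438953472), (824633720832, 274877906944)] :=
  covD_split 1 (by decide +kernel) A7_c0_t18 A7_c0_t19

theorem A7_c0_t3 : CovD 1 gA7 [(5889851392, 393216000), (137438953472, 137438953472), (549755813888, 549755813888)] :=
  covD_split 2 (by decide +kernel) A7_c0_t4 A7_c0_t17

theorem A7_c0_t20 : CovD 1 gA7 [(5889851392, 393216000), (137438953472, 137438953472), (1649267441664, 549755813888)] :=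
  covD_split 1 (by decide +kernel) A7_c0_t21 A7_c0_t22

theorem A7_c0_t2 : CovD 1 gA7 [(5889851392, 393216000), (137438953472, 137438953472), (1099511627776, 1099511627776)] :=
  covD_split 2 (by decide +kernel) A7_c0_t3 A7_c0_t20

theorem A7_c0_t33 : CovD 1 gA7 [(5889851392, 393216000), (68719476736, 68719476736), (3264175144960, 34359738368)] :=
  covD_split 0 (by decide +kernel) A7_c0_t34 A7_c0_t35

theorem A7_c0_t31 : CovD 1 gA7 [(5889851392, 393216000), (68719476736, 68719476736), (3229815406592, 68719476736)] :=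
  covD_split 2 (by decide +kernel) A7_c0_t32 A7_c0_t33

theorem A7_c0_t29 : CovD 1 gA7 [(5889851392, 393216000), (68719476736, 68719476736), (3161095929856, 137438953472)] :=
  covD_split 2 (by decide +kernel) A7_c0_t30 A7_c0_t31

theorem A7_c0_t27 : CovD 1 gA7 [(5889851392, 393216000), (68719476736, 68719476736), (3023656976384, 274877906944)] :=
  covD_split 2 (by decide +kernel) A7_c0_t28 A7_c0_t29

theorem A7_c0_t25 : CovD 1 gA7 [(5889851392, 393216000), (68719476736, 68719476736), (2748779069440, 549755813888)] :=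
  covD_split 2 (by decide +kernel) A7_c0_t26 A7_c0_t27

theorem A7_c0_t44 : CovD 1 gA7 [(5889851392, 393216000), (206158430208, 68719476736), (3264175144960, 34359738368)] :=
  covD_split 1 (by decide +kernel) A7_c0_t45 A7_c0_t46

theorem A7_c0_t42 : CovD 1 gA7 [(5889851392, 393216000), (206158430208, 68719476736), (3229815406592, 68719476736)] :=
  covD_split 2 (by decide +kernel) A7_c0_t43 A7_c0_t44

theorem A7_c0_t40 : CovD 1 gA7 [(5889851392, 393216000), (206158430208, 68719476736), (3161095929856, 137438953472)] :=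
  covD_split 2 (by decide +kernel) A7_c0_t41 A7_c0_t42

theorem A7_c0_t38 : CovD 1 gA7 [(5889851392, 393216000), (206158430208, 68719476736), (3023656976384, 274877906944)] :=
  covD_split 2 (by decide +kernel) A7_c0_t39 A7_c0_t40

theorem A7_c0_t36 : CovD 1 gA7 [(5889851392, 393216000), (206158430208, 68719476736), (2748779069440, 549755813888)] :=
  covD_split 2 (by decide +kernel) A7_c0_t37 A7_c0_t38

theorem A7_c0_t24 : CovD 1 gA7 [(5889851392, 393216000), (137438953472, 137438953472), (2748779069440, 549755813888)] :=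
  covD_split 1 (by decide +kernel) A7_c0_t25 A7_c0_t36

theorem A7_c0_t23 : CovD 1 gA7 [(5889851392, 393216000), (137438953472, 137438953472), (3298534883328, 1099511627776)] :=
  covD_split 2 (by decide +kernel) A7_c0_t24 A7_c0_t47

theorem A7_c0_t1 : CovD 1 gA7 [(5889851392, 393216000), (137438953472, 137438953472), (2199023255552, 2199023255552)] :=
  covD_split 2 (by decide +kernel) A7_c0_t2 A7_c0_t23

theorem A7_c0 : CovD 1 gA7 [(5889851392, 393216000), (137438953472, 137438953472), (4398046511104, 4398046511104)] :=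
  covD_split 2 (by decide +kernel) A7_c0_t1 A7_c0_t48

theorem B7_c0_t3 : CovD 1 gB7 [(5889851392, 393216000), (68719476736, 68719476736), (17179869184, 17179869184)] :=
  covD_split 2 (by decide +kernel) B7_c0_t4 B7_c0_t5

theorem B7_c0_t2 : CovD 1 gB7 [(5889851392, 393216000), (137438953472, 137438953472), (17179869184, 17179869184)] :=
  covD_split 1 (by decide +kernel) B7_c0_t3 B7_c0_t6

theorem B7_c0_t1 : CovD 1 gB7 [(5889851392, 393216000), (137438953472, 137438953472), (34359738368, 34359738368)] :=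
  covD_split 2 (by decide +kernel) B7_c0_t2 B7_c0_t7

theorem B7_c0 : CovD 1 gB7 [(5889851392, 393216000), (137438953472, 137438953472), (68719476736, 68719476736)] :=
  covD_split 2 (by decide +kernel) B7_c0_t1 B7_c0_t8

theorem C7_c0_t3 : CovD 1 gC7 [(5889851392, 393216000), (17179869184, 17179869184), (549755813888, 549755813888)] :=
  covD_split 2 (by decide +kernel) C7_c0_t4 C7_c0_t5

theorem C7_c0_t2 : CovD 1 gC7 [(5889851392, 393216000), (34359738368, 34359738368), (549755813888, 549755813888)] :=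
  covD_split 1 (by decide +kernel) C7_c0_t3 C7_c0_t6

theorem C7_c0_t1 : CovD 1 gC7 [(5889851392, 393216000), (68719476736, 68719476736), (549755813888, 549755813888)] :=
  covD_split 1 (by decide +kernel) C7_c0_t2 C7_c0_t7

theorem C7_c0 : CovD 1 gC7 [(5889851392, 393216000), (137438953472, 137438953472), (549755813888, 549755813888)] :=
  covD_split 1 (by decide +kernel) C7_c0_t1 C7_c0_t8

theorem D7_c0 : CovD 1 gD7 [(5889851392, 393216000), (137438953472, 137438953472), (863610339328, 863610339328)] :=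
  covD_split 2 (by decide +kernel) D7_c0_t1 D7_c0_t2

theorem E7_c0_t1 : CovD 1 gE7 [(5889851392, 393216000), (137438953472, 137438953472), (431805169664, 431805169664)] :=
  covD_split 2 (by decide +kernel) E7_c0_t2 E7_c0_t3

theorem E7_c0 : CovD 1 gE7 [(5889851392, 393216000), (137438953472, 137438953472), (863610339328, 863610339328)] :=
  covD_split 2 (by decide +kernel) E7_c0_t1 E7_c0_t4

end Pool.Agent.helper14.NS.Q175a
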