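import Pool.Agent.helper14.NS.Q175a.PN8

/-!
Generated: certificates.
-/

namespace Pool.Agent.helper14.NS.Q175a

open Pool.Agent.helper31.IA (Z)
open Pool.Agent.helper31.IX (Op XOps runX Cov CovD cov_split covD_split)
open Pool.Agent.helper31.IC (TD)
open Pool.Agent.helper63.RG (reloc)
open Pool.Agent.helper63.NF hiding TD
open Pool.Agent.helper4.NS
open Pool.Agent.helper14.CF (xE covD_E)
open Pool.Agent.helper14.NR (share)

mutual
theorem A8_c0_t6 : CovD 1 gA8 [(5889851392, 393216000), (137438953472, 137438953472), (68719476736, 68719476736)] :=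
  covD_E kA8_eq (.n 2 (.l 2) (.n 1 (.n 2 (.l 2) (.n 1 (.n 2 (.l 2) (.n 1 (.n 1 (.l 0) (.l 0)) (.l 0))) (.l 0))) (.l 0)))
    [(5889851392, 393216000), (137438953472, 137438953472), (68719476736, 68719476736)] rfl (by decide +kernel)
theorem A8_c0_t9 : CovD 1 gA8 [(5889851392, 393216000), (34359738368, 34359738368), (206158430208, 68719476736)] :=
  covD_E kA8_eq (.n 1 (.n 1 (.n 2 (.n 2 (.n 0 (.l 0) (.l 0)) (.l 0)) (.n 0 (.l 0) (.l 0))) (.n 2 (.n 2 (.n 1 (.l 0) (.l 0)) (.l 0)) (.l 0))) (.n 1 (.n 2 (.n 2 (.l 0) (.l 0)) (.n 0 (.l 0) (.l 0))) (.n 2 (.n 1 (.l 0) (.l 0)) (.l 0))))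
    [(5889851392, 393216000), (34359738368, 34359738368), (206158430208, 68719476736)] rfl (by decide +kernel)
end

mutual
theorem A8_c0_t10 : CovD 1 gA8 [(5889851392, 393216000), (103079215104, 34359738368), (206158430208, 68719476736)] :=
  covD_E kA8_eq (.n 1 (.n 1 (.n 2 (.l 0) (.l 0)) (.n 2 (.l 0) (.l 0))) (.n 2 (.l 0) (.l 0)))
    [(5889851392, 393216000), (103079215104, 34359738368), (206158430208, 68719476736)] rfl (by decide +kernel)
theorem A8_c0_t11 : CovD 1 gA8 [(5889851392, 393216000), (206158430208, 68719476736), (206158430208, 68719476736)] :=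
  covD_E kA8_eq (.n 1 (.n 1 (.l 0) (.l 0)) (.l 0))
    [(5889851392, 393216000), (206158430208, 68719476736), (206158430208, 68719476736)] rfl (by decide +kernel)
end

mutual
theorem A8_c0_t14 : CovD 1 gA8 [(5889851392, 393216000), (34359738368, 34359738368), (412316860416, 137438953472)] :=
  covD_E kA8_eq (.n 1 (.n 2 (.n 2 (.n 1 (.l 0) (.l 0)) (.l 0)) (.n 2 (.l 0) (.l 0))) (.n 2 (.n 2 (.n 1 (.l 0) (.l 0)) (.l 0)) (.n 2 (.l 0) (.l 0))))
    [(5889851392, 393216000), (34359738368, 34359738368), (412316860416, 137438953472)] rfl (by decide +kernel)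
theorem A8_c0_t15 : CovD 1 gA8 [(5889851392, 393216000), (103079215104, 34359738368), (412316860416, 137438953472)] :=
  covD_E kA8_eq (.n 1 (.n 2 (.n 2 (.l 0) (.l 0)) (.n 1 (.l 0) (.l 0))) (.n 2 (.n 2 (.l 0) (.l 0)) (.n 0 (.l 0) (.l 0))))
    [(5889851392, 393216000), (103079215104, 34359738368), (412316860416, 137438953472)] rfl (by decide +kernel)
end

mutual
theorem A8_c0_t16 : CovD 1 gA8 [(5889851392, 393216000), (206158430208, 68719476736), (412316860416, 137438953472)] :=
  covD_E kA8_eq (.n 1 (.n 2 (.n 2 (.l 0) (.l 0)) (.n 2 (.l 0) (.l 0))) (.n 2 (.l 0) (.l 0)))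
    [(5889851392, 393216000), (206158430208, 68719476736), (412316860416, 137438953472)] rfl (by decide +kernel)
theorem A8_c0_t18 : CovD 1 gA8 [(5889851392, 393216000), (68719476736, 68719476736), (824633720832, 274877906944)] :=
  covD_E kA8_eq (.n 1 (.n 2 (.n 1 (.n 2 (.l 0) (.l 0)) (.n 2 (.n 0 (.l 0) (.l 0)) (.l 0))) (.n 2 (.l 0) (.l 0))) (.n 2 (.n 2 (.n 2 (.l 0) (.l 0)) (.n 1 (.l 0) (.l 0))) (.n 2 (.l 0) (.l 0))))
    [(5889851392, 393216000), (68719476736, 68719476736), (824633720832, 274877906944)] rfl (by decide +kernel)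
end

mutual
theorem A8_c0_t19 : CovD 1 gA8 [(5889851392, 393216000), (206158430208, 68719476736), (824633720832, 274877906944)] :=
  covD_E kA8_eq (.n 1 (.n 2 (.n 1 (.n 2 (.l 0) (.l 0)) (.n 2 (.l 0) (.l 0))) (.n 2 (.n 0 (.l 0) (.l 0)) (.l 0))) (.n 2 (.n 2 (.n 0 (.l 0) (.l 0)) (.l 0)) (.n 2 (.l 0) (.l 0))))
    [(5889851392, 393216000), (206158430208, 68719476736), (824633720832, 274877906944)] rfl (by decide +kernel)
theorem A8_c0_t21 : CovD 1 gA8 [(5889851392, 393216000), (68719476736, 68719476736), (1649267441664, 549755813888)] :=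
  covD_E kA8_eq (.n 2 (.n 2 (.n 0 (.n 2 (.l 0) (.l 0)) (.n 2 (.l 0) (.l 0))) (.n 2 (.n 0 (.l 0) (.l 0)) (.l 0))) (.n 2 (.n 2 (.l 0) (.l 0)) (.n 2 (.l 0) (.l 0))))
    [(5889851392, 393216000), (68719476736, 68719476736), (1649267441664, 549755813888)] rfl (by decide +kernel)
end

mutual
theorem A8_c0_t22 : CovD 1 gA8 [(5889851392, 393216000), (206158430208, 68719476736), (1649267441664, 549755813888)] :=
  covD_E kA8_eq (.n 2 (.n 2 (.n 2 (.n 0 (.l 0) (.l 0)) (.l 0)) (.n 2 (.l 0) (.l 0))) (.n 2 (.n 2 (.l 0) (.l 0)) (.n 2 (.l 0) (.l 0))))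
    [(5889851392, 393216000), (206158430208, 68719476736), (1649267441664, 549755813888)] rfl (by decide +kernel)
theorem A8_c0_t26 : CovD 1 gA8 [(5889851392, 393216000), (68719476736, 68719476736), (2473901162496, 274877906944)] :=
  covD_E kA8_eq (.n 2 (.n 2 (.l 0) (.l 0)) (.n 2 (.l 0) (.l 0)))
    [(5889851392, 393216000), (68719476736, 68719476736), (2473901162496, 274877906944)] rfl (by decide +kernel)
end

mutual
theorem A8_c0_t27 : CovD 1 gA8 [(5889851392, 393216000), (68719476736, 68719476736), (3023656976384, 274877906944)] :=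
  covD_E kA8_eq (.n 2 (.n 2 (.l 0) (.l 0)) (.n 2 (.l 0) (.n 2 (.l 0) (.n 1 (.n 2 (.l 0) (.n 0 (.n 0 (.n 0 (.l 0) (.l 0)) (.l 0)) (.n 0 (.l 0) (.l 0)))) (.n 0 (.n 0 (.l 0) (.l 0)) (.n 0 (.l 0) (.l 0)))))))
    [(5889851392, 393216000), (68719476736, 68719476736), (3023656976384, 274877906944)] rfl (by decide +kernel)
theorem A8_c0_t28 : CovD 1 gA8 [(5889851392, 393216000), (206158430208, 68719476736), (2748779069440, 549755813888)] :=
  covD_E kA8_eq (.n 2 (.n 2 (.n 2 (.l 0) (.l 0)) (.n 2 (.l 0) (.l 0))) (.n 2 (.n 2 (.l 0) (.l 0)) (.n 2 (.l 0) (.n 2 (.l 0) (.n 2 (.l 0) (.n 0 (.n 0 (.n 0 (.l 0) (.l 0)) (.l 0)) (.n 0 (.l 0) (.l 0))))))))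
    [(5889851392, 393216000), (206158430208, 68719476736), (2748779069440, 549755813888)] rfl (by decide +kernel)
end

mutual
theorem A8_c0_t35 : CovD 1 gA8 [(5693243392, 196608000), (68719476736, 68719476736), (3332894621696, 34359738368)] :=
  covD_E kA8_eq (.n 0 (.n 1 (.n 1 (.l 1) (.l 1)) (.n 0 (.l 1) (.l 1))) (.n 1 (.n 1 (.l 1) (.l 1)) (.n 0 (.l 1) (.l 1))))
    [(5693243392, 196608000), (68719476736, 68719476736), (3332894621696, 34359738368)] rfl (by decide +kernel)
theorem A8_c0_t36 : CovD 1 gA8 [(6086459392, 196608000), (68719476736, 68719476736), (3332894621696, 34359738368)] :=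
  covD_E kA8_eq (.n 0 (.n 1 (.n 1 (.l 1) (.l 1)) (.n 1 (.l 1) (.l 1))) (.n 2 (.n 1 (.n 1 (.l 1) (.l 1)) (.n 2 (.n 1 (.l 1) (.l 1)) (.l 1))) (.l 1)))
    [(6086459392, 196608000), (68719476736, 68719476736), (3332894621696, 34359738368)] rfl (by decide +kernel)
end

mutual
theorem A8_c0_t39 : CovD 1 gA8 [(5693243392, 196608000), (206158430208, 68719476736), (3315714752512, 17179869184)] :=
  covD_E kA8_eq (.n 0 (.n 0 (.n 1 (.l 1) (.l 1)) (.n 1 (.l 1) (.l 1))) (.n 1 (.n 0 (.l 1) (.l 1)) (.n 1 (.l 1) (.n 0 (.l 1) (.l 1)))))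
    [(5693243392, 196608000), (206158430208, 68719476736), (3315714752512, 17179869184)] rfl (by decide +kernel)
theorem A8_c0_t40 : CovD 1 gA8 [(6086459392, 196608000), (206158430208, 68719476736), (3315714752512, 17179869184)] :=
  covD_E kA8_eq (.n 0 (.n 0 (.n 1 (.l 1) (.n 1 (.l 1) (.l 1))) (.n 1 (.n 1 (.l 1) (.l 1)) (.n 1 (.l 1) (.l 1)))) (.n 0 (.n 1 (.n 1 (.l 1) (.l 1)) (.n 1 (.l 1) (.l 1))) (.n 1 (.n 1 (.l 1) (.l 1)) (.n 1 (.l 1) (.n 1 (.l 1) (.l 1))))))
    [(6086459392, 196608000), (206158430208, 68719476736), (3315714752512, 17179869184)] rfl (by decide +kernel)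
end

mutual
theorem A8_c0_t41 : CovD 1 gA8 [(5889851392, 393216000), (206158430208, 68719476736), (3350074490880, 17179869184)] :=
  covD_E kA8_eq (.l 1)
    [(5889851392, 393216000), (206158430208, 68719476736), (3350074490880, 17179869184)] rfl (by decide +kernel)
theorem A8_c0_t42 : CovD 1 gA8 [(5889851392, 393216000), (137438953472, 137438953472), (3401614098432, 34359738368)] :=
  covD_E kA8_eq (.l 1)
    [(5889851392, 393216000), (137438953472, 137438953472), (3401614098432, 34359738368)] rfl (by decide +kernel)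
end

mutual
theorem A8_c0_t43 : CovD 1 gA8 [(5889851392, 393216000), (137438953472, 137438953472), (3504693313536, 68719476736)] :=
  covD_E kA8_eq (.l 1)
    [(5889851392, 393216000), (137438953472, 137438953472), (3504693313536, 68719476736)] rfl (by decide +kernel)
theorem A8_c0_t44 : CovD 1 gA8 [(5889851392, 393216000), (137438953472, 137438953472), (3710851743744, 137438953472)] :=
  covD_E kA8_eq (.l 1)
    [(5889851392, 393216000), (137438953472, 137438953472), (3710851743744, 137438953472)] rfl (by decide +kernel)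
end

mutual
theorem A8_c0_t45 : CovD 1 gA8 [(5889851392, 393216000), (137438953472, 137438953472), (4123168604160, 274877906944)] :=
  covD_E kA8_eq (.l 1)
    [(5889851392, 393216000), (137438953472, 137438953472), (4123168604160, 274877906944)] rfl (by decide +kernel)
theorem A8_c0_t46 : CovD 1 gA8 [(5889851392, 393216000), (137438953472, 137438953472), (6597069766656, 2199023255552)] :=
  covD_E kA8_eq (.n 2 (.n 2 (.l 1) (.l 1)) (.n 0 (.l 1) (.l 1)))
    [(5889851392, 393216000), (137438953472, 137438953472), (6597069766656, 2199023255552)] rfl (by decide +kernel)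
end

mutual
theorem B8_c0_t3 : CovD 1 gB8 [(5889851392, 393216000), (68719476736, 68719476736), (17179869184, 17179869184)] :=
  covD_E kB8_eq (.n 2 (.n 2 (.n 2 (.n 1 (.n 0 (.l 1) (.l 1)) (.l 1)) (.n 2 (.l 1) (.l 1))) (.n 0 (.n 2 (.l 1) (.l 1)) (.n 2 (.l 1) (.l 1)))) (.n 2 (.n 2 (.n 0 (.l 1) (.l 1)) (.l 1)) (.n 2 (.l 1) (.l 1))))
    [(5889851392, 393216000), (68719476736, 68719476736), (17179869184, 17179869184)] rfl (by decide +kernel)
theorem B8_c0_t4 : CovD 1 gB8 [(5889851392, 393216000), (206158430208, 68719476736), (17179869184, 17179869184)] :=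
  covD_E kB8_eq (.n 2 (.n 2 (.n 2 (.l 1) (.l 1)) (.n 2 (.l 1) (.l 1))) (.n 2 (.n 2 (.l 1) (.l 1)) (.l 1)))
    [(5889851392, 393216000), (206158430208, 68719476736), (17179869184, 17179869184)] rfl (by decide +kernel)
end

mutual
theorem B8_c0_t5 : CovD 1 gB8 [(5889851392, 393216000), (137438953472, 137438953472), (51539607552, 17179869184)] :=
  covD_E kB8_eq (.n 2 (.n 1 (.n 2 (.n 0 (.l 1) (.l 1)) (.l 1)) (.n 2 (.l 1) (.l 1))) (.n 2 (.l 1) (.l 1)))
    [(5889851392, 393216000), (137438953472, 137438953472), (51539607552, 17179869184)] rfl (by decide +kernel)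
theorem B8_c0_t6 : CovD 1 gB8 [(5889851392, 393216000), (137438953472, 137438953472), (103079215104, 34359738368)] :=
  covD_E kB8_eq (.n 2 (.n 2 (.n 0 (.l 1) (.l 1)) (.l 1)) (.n 2 (.l 1) (.l 1)))
    [(5889851392, 393216000), (137438953472, 137438953472), (103079215104, 34359738368)] rfl (by decide +kernel)
end

mutual
theorem C8_c0_t4 : CovD 1 gC8 [(5889851392, 393216000), (17179869184, 17179869184), (274877906944, 274877906944)] :=
  covD_E kC8_eq (.n 2 (.n 2 (.l 0) (.l 0)) (.n 1 (.n 2 (.l 0) (.l 0)) (.l 0)))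
    [(5889851392, 393216000), (17179869184, 17179869184), (274877906944, 274877906944)] rfl (by decide +kernel)
theorem C8_c0_t5 : CovD 1 gC8 [(5889851392, 393216000), (17179869184, 17179869184), (824633720832, 274877906944)] :=
  covD_E kC8_eq (.n 1 (.n 2 (.n 2 (.l 0) (.l 0)) (.n 2 (.l 0) (.n 2 (.l 0) (.n 2 (.l 0) (.n 2 (.l 0) (.n 2 (.l 0) (.n 2 (.l 0) (.n 2 (.l 0) (.l 1))))))))) (.n 2 (.l 0) (.n 1 (.l 0) (.l 0))))
    [(5889851392, 393216000), (17179869184, 17179869184), (824633720832, 274877906944)] rfl (by decide +kernel)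
end

mutual
theorem C8_c0_t6 : CovD 1 gC8 [(5889851392, 393216000), (51539607552, 17179869184), (549755813888, 549755813888)] :=
  covD_E kC8_eq (.n 2 (.n 2 (.l 0) (.l 0)) (.n 2 (.l 0) (.n 1 (.l 0) (.l 0))))
    [(5889851392, 393216000), (51539607552, 17179869184), (549755813888, 549755813888)] rfl (by decide +kernel)
theorem C8_c0_t7 : CovD 1 gC8 [(5889851392, 393216000), (103079215104, 34359738368), (549755813888, 549755813888)] :=
  covD_E kC8_eq (.n 2 (.n 2 (.l 0) (.l 0)) (.n 2 (.l 0) (.l 0)))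
    [(5889851392, 393216000), (103079215104, 34359738368), (549755813888, 549755813888)] rfl (by decide +kernel)
end

mutual
theorem C8_c0_t8 : CovD 1 gC8 [(5889851392, 393216000), (206158430208, 68719476736), (549755813888, 549755813888)] :=
  covD_E kC8_eq (.n 2 (.n 2 (.l 0) (.l 0)) (.n 2 (.l 0) (.l 0)))
    [(5889851392, 393216000), (206158430208, 68719476736), (549755813888, 549755813888)] rfl (by decide +kernel)
theorem D8_c0_t1 : CovD 1 gD8 [(5889851392, 393216000), (137438953472, 137438953472), (431805169664, 431805169664)] :=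
  covD_E kD8_eq (.n 2 (.n 2 (.n 2 (.n 2 (.l 0) (.l 0)) (.n 2 (.l 0) (.l 0))) (.n 2 (.n 2 (.l 0) (.l 0)) (.n 2 (.l 0) (.l 0)))) (.n 2 (.n 2 (.n 2 (.l 0) (.l 0)) (.n 2 (.l 0) (.l 0))) (.n 2 (.n 2 (.l 0) (.l 0)) (.n 2 (.l 0) (.l 0)))))
    [(5889851392, 393216000), (137438953472, 137438953472), (431805169664, 431805169664)] rfl (by decide +kernel)
end

mutual
theorem D8_c0_t2 : CovD 1 gD8 [(5889851392, 393216000), (137438953472, 137438953472), (1295415508992, 431805169664)] :=
  covD_E kD8_eq (.n 2 (.n 2 (.n 2 (.n 2 (.l 0) (.l 0)) (.n 2 (.l 0) (.l 0))) (.n 2 (.n 2 (.l 0) (.l 0)) (.n 2 (.l 0) (.l 0)))) (.n 2 (.n 2 (.n 2 (.l 0) (.l 0)) (.n 2 (.l 0) (.l 0))) (.n 2 (.n 2 (.l 0) (.l 0)) (.n 2 (.l 0) (.l 0)))))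
    [(5889851392, 393216000), (137438953472, 137438953472), (1295415508992, 431805169664)] rfl (by decide +kernel)
theorem E8_c0_t2 : CovD 1 gE8 [(5889851392, 393216000), (137438953472, 137438953472), (215902584832, 215902584832)] :=
  covD_E kE8_eq (.n 2 (.n 2 (.l 1) (.n 2 (.n 2 (.l 0) (.l 0)) (.n 2 (.l 0) (.l 0)))) (.n 2 (.n 2 (.n 2 (.l 0) (.l 0)) (.n 2 (.l 0) (.l 0))) (.n 2 (.n 2 (.l 0) (.l 0)) (.n 2 (.l 0) (.l 0)))))
    [(5889851392, 393216000), (137438953472, 137438953472), (215902584832, 215902584832)] rfl (by decide +kernel)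
end

mutual
theorem E8_c0_t3 : CovD 1 gE8 [(5889851392, 393216000), (137438953472, 137438953472), (647707754496, 215902584832)] :=
  covD_E kE8_eq (.n 2 (.n 2 (.n 2 (.n 2 (.l 0) (.l 0)) (.n 2 (.l 0) (.l 0))) (.n 2 (.n 2 (.l 0) (.l 0)) (.n 2 (.l 0) (.l 0)))) (.n 2 (.n 2 (.n 2 (.l 0) (.l 0)) (.n 2 (.l 0) (.l 0))) (.n 2 (.n 0 (.l 0) (.l 0)) (.l 0))))
    [(5889851392, 393216000), (137438953472, 137438953472), (647707754496, 215902584832)] rfl (by decide +kernel)
theorem E8_c0_t4 : CovD 1 gE8 [(5889851392, 393216000), (137438953472, 137438953472), (1295415508992, 431805169664)] :=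
  covD_E kE8_eq (.n 2 (.n 2 (.n 2 (.n 2 (.l 0) (.l 0)) (.n 2 (.l 0) (.l 0))) (.n 2 (.n 2 (.l 0) (.l 0)) (.n 2 (.l 0) (.l 0)))) (.n 2 (.n 2 (.n 2 (.l 0) (.l 0)) (.n 2 (.l 0) (.l 0))) (.n 2 (.n 2 (.l 0) (.l 0)) (.n 2 (.l 0) (.l 0)))))
    [(5889851392, 393216000), (137438953472, 137438953472), (1295415508992, 431805169664)] rfl (by decide +kernel)
end

theorem A8_c0_t8 : CovD 1 gA8 [(5889851392, 393216000), (68719476736, 68719476736), (206158430208, 68719476736)] :=
  covD_split 1 (by decide +kernel) A8_c0_t9 A8_c0_t10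

theorem A8_c0_t7 : CovD 1 gA8 [(5889851392, 393216000), (137438953472, 137438953472), (206158430208, 68719476736)] :=
  covD_split 1 (by decide +kernel) A8_c0_t8 A8_c0_t11

theorem A8_c0_t5 : CovD 1 gA8 [(5889851392, 393216000), (137438953472, 137438953472), (137438953472, 137438953472)] :=
  covD_split 2 (by decide +kernel) A8_c0_t6 A8_c0_t7

theorem A8_c0_t13 : CovD 1 gA8 [(5889851392, 393216000), (68719476736, 68719476736), (412316860416, 137438953472)] :=
  covD_split 1 (by decide +kernel) A8_c0_t14 A8_c0_t15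

theorem A8_c0_t12 : CovD 1 gA8 [(5889851392, 393216000), (137438953472, 137438953472), (412316860416, 137438953472)] :=
  covD_split 1 (by decide +kernel) A8_c0_t13 A8_c0_t16

theorem A8_c0_t4 : CovD 1 gA8 [(5889851392, 393216000), (137438953472, 137438953472), (274877906944, 274877906944)] :=
  covD_split 2 (by decide +kernel) A8_c0_t5 A8_c0_t12

theorem A8_c0_t17 : CovD 1 gA8 [(5889851392, 393216000), (137438953472, 137438953472), (824633720832, 274877906944)] :=
  covD_split 1 (by decide +kernel) A8_c0_t18 A8_c0_t19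

theorem A8_c0_t3 : CovD 1 gA8 [(5889851392, 393216000), (137438953472, 137438953472), (549755813888, 549755813888)] :=
  covD_split 2 (by decide +kernel) A8_c0_t4 A8_c0_t17

theorem A8_c0_t20 : CovD 1 gA8 [(5889851392, 393216000), (137438953472, 137438953472), (1649267441664, 549755813888)] :=
  covD_split 1 (by decide +kernel) A8_c0_t21 A8_c0_t22

theorem A8_c0_t2 : CovD 1 gA8 [(5889851392, 393216000), (137438953472, 137438953472), (1099511627776, 1099511627776)] :=
  covD_split 2 (by decide +kernel) A8_c0_t3 A8_c0_t20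

theorem A8_c0_t25 : CovD 1 gA8 [(5889851392, 393216000), (68719476736, 68719476736), (2748779069440, 549755813888)] :=
  covD_split 2 (by decide +kernel) A8_c0_t26 A8_c0_t27

theorem A8_c0_t24 : CovD 1 gA8 [(5889851392, 393216000), (137438953472, 137438953472), (2748779069440, 549755813888)] :=
  covD_split 1 (by decide +kernel) A8_c0_t25 A8_c0_t28

theorem A8_c0_t34 : CovD 1 gA8 [(5889851392, 393216000), (68719476736, 68719476736), (3332894621696, 34359738368)] :=
  covD_split 0 (by decide +kernel) A8_c0_t35 A8_c0_t36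

theorem A8_c0_t38 : CovD 1 gA8 [(5889851392, 393216000), (206158430208, 68719476736), (3315714752512, 17179869184)] :=
  covD_split 0 (by decide +kernel) A8_c0_t39 A8_c0_t40

theorem A8_c0_t37 : CovD 1 gA8 [(5889851392, 393216000), (206158430208, 68719476736), (3332894621696, 34359738368)] :=
  covD_split 2 (by decide +kernel) A8_c0_t38 A8_c0_t41

theorem A8_c0_t33 : CovD 1 gA8 [(5889851392, 393216000), (137438953472, 137438953472), (3332894621696, 34359738368)] :=
  covD_split 1 (by decide +kernel) A8_c0_t34 A8_c0_t37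

theorem A8_c0_t32 : CovD 1 gA8 [(5889851392, 393216000), (137438953472, 137438953472), (3367254360064, 68719476736)] :=
  covD_split 2 (by decide +kernel) A8_c0_t33 A8_c0_t42

theorem A8_c0_t31 : CovD 1 gA8 [(5889851392, 393216000), (137438953472, 137438953472), (3435973836800, 137438953472)] :=
  covD_split 2 (by decide +kernel) A8_c0_t32 A8_c0_t43

theorem A8_c0_t30 : CovD 1 gA8 [(5889851392, 393216000), (137438953472, 137438953472), (3573412790272, 274877906944)] :=
  covD_split 2 (by decide +kernel) A8_c0_t31 A8_c0_t44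

theorem A8_c0_t29 : CovD 1 gA8 [(5889851392, 393216000), (137438953472, 137438953472), (3848290697216, 549755813888)] :=
  covD_split 2 (by decide +kernel) A8_c0_t30 A8_c0_t45

theorem A8_c0_t23 : CovD 1 gA8 [(5889851392, 393216000), (137438953472, 137438953472), (3298534883328, 1099511627776)] :=
  covD_split 2 (by decide +kernel) A8_c0_t24 A8_c0_t29

theorem A8_c0_t1 : CovD 1 gA8 [(5889851392, 393216000), (137438953472, 137438953472), (2199023255552, 2199023255552)] :=
  covD_split 2 (by decide +kernel) A8_c0_t2 A8_c0_t23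

theorem A8_c0 : CovD 1 gA8 [(5889851392, 393216000), (137438953472, 137438953472), (4398046511104, 4398046511104)] :=
  covD_split 2 (by decide +kernel) A8_c0_t1 A8_c0_t46

theorem B8_c0_t2 : CovD 1 gB8 [(5889851392, 393216000), (137438953472, 137438953472), (17179869184, 17179869184)] :=
  covD_split 1 (by decide +kernel) B8_c0_t3 B8_c0_t4

theorem B8_c0_t1 : CovD 1 gB8 [(5889851392, 393216000), (137438953472, 137438953472), (34359738368, 34359738368)] :=
  covD_split 2 (by decide +kernel) B8_c0_t2 B8_c0_t5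

theorem B8_c0 : CovD 1 gB8 [(5889851392, 393216000), (137438953472, 137438953472), (68719476736, 68719476736)] :=
  covD_split 2 (by decide +kernel) B8_c0_t1 B8_c0_t6

theorem C8_c0_t3 : CovD 1 gC8 [(5889851392, 393216000), (17179869184, 17179869184), (549755813888, 549755813888)] :=
  covD_split 2 (by decide +kernel) C8_c0_t4 C8_c0_t5

theorem C8_c0_t2 : CovD 1 gC8 [(5889851392, 393216000), (34359738368, 34359738368), (549755813888, 549755813888)] :=
  covD_split 1 (by decide +kernel) C8_c0_t3 C8_c0_t6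

theorem C8_c0_t1 : CovD 1 gC8 [(5889851392, 393216000), (68719476736, 68719476736), (549755813888, 549755813888)] :=
  covD_split 1 (by decide +kernel) C8_c0_t2 C8_c0_t7

theorem C8_c0 : CovD 1 gC8 [(5889851392, 393216000), (137438953472, 137438953472), (549755813888, 549755813888)] :=
  covD_split 1 (by decide +kernel) C8_c0_t1 C8_c0_t8

theorem D8_c0 : CovD 1 gD8 [(5889851392, 393216000), (137438953472, 137438953472), (863610339328, 863610339328)] :=
  covD_split 2 (by decide +kernel) D8_c0_t1 D8_c0_t2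

theorem E8_c0_t1 : CovD 1 gE8 [(5889851392, 393216000), (137438953472, 137438953472), (431805169664, 431805169664)] :=
  covD_split 2 (by decide +kernel) E8_c0_t2 E8_c0_t3

theorem E8_c0 : CovD 1 gE8 [(5889851392, 393216000), (137438953472, 137438953472), (863610339328, 863610339328)] :=
  covD_split 2 (by decide +kernel) E8_c0_t1 E8_c0_t4

end Pool.Agent.helper14.NS.Q175a
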