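import Pool.Agent.helper14.NS.Q175a.PN9

/-!
Generated: certificates.
-/

namespace Pool.Agent.helper14.NS.Q175a

open Pool.Agent.helper31.IA (Z)
open Pool.Agent.helper31.IX (Op XOps runX Cov CovD cov_split covD_split)
open Pool.Agent.helper31.IC (TD)
open Pool.Agent.helper63.RG (reloc)
open Pool.Agent.helper63.NF hiding TD
open Pool.Agent.helper4.NS
open Pool.Agent.helper14.CF (xE covD_E)
open Pool.Agent.helper14.NR (share)

mutual
theorem A9_c0_t6 : CovD 1 gA9 [(5889851392, 393216000), (137438953472, 137438953472), (68719476736, 68719476736)] :=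
  covD_E kA9_eq (.n 2 (.l 2) (.n 1 (.n 2 (.l 2) (.n 1 (.n 2 (.l 2) (.n 1 (.n 1 (.l 0) (.l 0)) (.l 0))) (.l 0))) (.l 0)))
    [(5889851392, 393216000), (137438953472, 137438953472), (68719476736, 68719476736)] rfl (by decide +kernel)
theorem A9_c0_t9 : CovD 1 gA9 [(5889851392, 393216000), (34359738368, 34359738368), (206158430208, 68719476736)] :=
  covD_E kA9_eq (.n 1 (.n 1 (.n 2 (.n 2 (.n 0 (.l 0) (.l 0)) (.l 0)) (.n 0 (.l 0) (.l 0))) (.n 2 (.n 2 (.n 1 (.l 0) (.l 0)) (.l 0)) (.l 0))) (.n 1 (.n 2 (.n 2 (.l 0) (.l 0)) (.n 0 (.l 0) (.l 0))) (.n 2 (.n 1 (.l 0) (.l 0)) (.l 0))))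
    [(5889851392, 393216000), (34359738368, 34359738368), (206158430208, 68719476736)] rfl (by decide +kernel)
end

mutual
theorem A9_c0_t10 : CovD 1 gA9 [(5889851392, 393216000), (103079215104, 34359738368), (206158430208, 68719476736)] :=
  covD_E kA9_eq (.n 1 (.n 1 (.n 2 (.l 0) (.l 0)) (.n 2 (.l 0) (.l 0))) (.n 2 (.l 0) (.l 0)))
    [(5889851392, 393216000), (103079215104, 34359738368), (206158430208, 68719476736)] rfl (by decide +kernel)
theorem A9_c0_t11 : CovD 1 gA9 [(5889851392, 393216000), (206158430208, 68719476736), (206158430208, 68719476736)] :=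
  covD_E kA9_eq (.n 1 (.n 1 (.l 0) (.l 0)) (.l 0))
    [(5889851392, 393216000), (206158430208, 68719476736), (206158430208, 68719476736)] rfl (by decide +kernel)
end

mutual
theorem A9_c0_t14 : CovD 1 gA9 [(5889851392, 393216000), (34359738368, 34359738368), (412316860416, 137438953472)] :=
  covD_E kA9_eq (.n 1 (.n 1 (.n 2 (.n 2 (.l 0) (.l 0)) (.l 0)) (.n 2 (.n 2 (.l 0) (.l 0)) (.l 0))) (.n 2 (.n 2 (.n 1 (.l 0) (.l 0)) (.l 0)) (.n 1 (.l 0) (.l 0))))
    [(5889851392, 393216000), (34359738368, 34359738368), (412316860416, 137438953472)] rfl (by decide +kernel)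
theorem A9_c0_t15 : CovD 1 gA9 [(5889851392, 393216000), (103079215104, 34359738368), (412316860416, 137438953472)] :=
  covD_E kA9_eq (.n 2 (.n 1 (.n 2 (.l 0) (.l 0)) (.n 2 (.l 0) (.l 0))) (.n 2 (.n 1 (.l 0) (.l 0)) (.l 0)))
    [(5889851392, 393216000), (103079215104, 34359738368), (412316860416, 137438953472)] rfl (by decide +kernel)
end

mutual
theorem A9_c0_t16 : CovD 1 gA9 [(5889851392, 393216000), (206158430208, 68719476736), (412316860416, 137438953472)] :=
  covD_E kA9_eq (.n 1 (.n 2 (.n 2 (.l 0) (.l 0)) (.n 2 (.l 0) (.l 0))) (.n 2 (.l 0) (.l 0)))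
    [(5889851392, 393216000), (206158430208, 68719476736), (412316860416, 137438953472)] rfl (by decide +kernel)
theorem A9_c0_t18 : CovD 1 gA9 [(5889851392, 393216000), (68719476736, 68719476736), (824633720832, 274877906944)] :=
  covD_E kA9_eq (.n 1 (.n 2 (.n 1 (.n 2 (.l 0) (.l 0)) (.n 2 (.n 0 (.l 0) (.l 0)) (.l 0))) (.n 2 (.l 0) (.l 0))) (.n 2 (.n 2 (.n 2 (.l 0) (.l 0)) (.n 1 (.l 0) (.l 0))) (.n 2 (.l 0) (.l 0))))
    [(5889851392, 393216000), (68719476736, 68719476736), (824633720832, 274877906944)] rfl (by decide +kernel)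
end

mutual
theorem A9_c0_t19 : CovD 1 gA9 [(5889851392, 393216000), (206158430208, 68719476736), (824633720832, 274877906944)] :=
  covD_E kA9_eq (.n 1 (.n 2 (.n 1 (.n 2 (.l 0) (.l 0)) (.n 2 (.l 0) (.l 0))) (.n 2 (.n 0 (.l 0) (.l 0)) (.l 0))) (.n 2 (.n 2 (.n 0 (.l 0) (.l 0)) (.l 0)) (.n 2 (.l 0) (.l 0))))
    [(5889851392, 393216000), (206158430208, 68719476736), (824633720832, 274877906944)] rfl (by decide +kernel)
theorem A9_c0_t21 : CovD 1 gA9 [(5889851392, 393216000), (68719476736, 68719476736), (1649267441664, 549755813888)] :=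
  covD_E kA9_eq (.n 2 (.n 2 (.n 2 (.n 0 (.l 0) (.l 0)) (.l 0)) (.n 2 (.l 0) (.l 0))) (.n 2 (.n 2 (.l 0) (.l 0)) (.n 2 (.l 0) (.l 0))))
    [(5889851392, 393216000), (68719476736, 68719476736), (1649267441664, 549755813888)] rfl (by decide +kernel)
end

mutual
theorem A9_c0_t22 : CovD 1 gA9 [(5889851392, 393216000), (206158430208, 68719476736), (1649267441664, 549755813888)] :=
  covD_E kA9_eq (.n 2 (.n 2 (.n 2 (.n 1 (.l 0) (.l 0)) (.l 0)) (.n 2 (.l 0) (.l 0))) (.n 2 (.n 2 (.l 0) (.l 0)) (.n 2 (.l 0) (.l 0))))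
    [(5889851392, 393216000), (206158430208, 68719476736), (1649267441664, 549755813888)] rfl (by decide +kernel)
theorem A9_c0_t25 : CovD 1 gA9 [(5889851392, 393216000), (68719476736, 68719476736), (2748779069440, 549755813888)] :=
  covD_E kA9_eq (.n 2 (.n 2 (.n 2 (.l 0) (.l 0)) (.n 2 (.l 0) (.l 0))) (.n 2 (.n 2 (.l 0) (.l 0)) (.n 2 (.l 0) (.n 0 (.l 0) (.l 0)))))
    [(5889851392, 393216000), (68719476736, 68719476736), (2748779069440, 549755813888)] rfl (by decide +kernel)
end

mutual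
theorem A9_c0_t26 : CovD 1 gA9 [(5889851392, 393216000), (206158430208, 68719476736), (2748779069440, 549755813888)] :=
  covD_E kA9_eq (.n 2 (.n 2 (.n 2 (.l 0) (.l 0)) (.n 2 (.l 0) (.l 0))) (.n 2 (.n 2 (.l 0) (.l 0)) (.n 2 (.l 0) (.l 0))))
    [(5889851392, 393216000), (206158430208, 68719476736), (2748779069440, 549755813888)] rfl (by decide +kernel)
theorem A9_c0_t32 : CovD 1 gA9 [(5693243392, 196608000), (68719476736, 68719476736), (3367254360064, 68719476736)] :=
  covD_E kA9_eq (.n 2 (.n 0 (.n 1 (.n 1 (.n 2 (.l 0) (.l 1)) (.n 2 (.l 0) (.l 1))) (.n 2 (.l 0) (.n 0 (.l 1) (.l 1)))) (.n 1 (.n 1 (.n 2 (.l 0) (.l 1)) (.n 2 (.l 0) (.l 1))) (.n 2 (.l 0) (.n 0 (.l 1) (.l 1))))) (.l 1))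
    [(5693243392, 196608000), (68719476736, 68719476736), (3367254360064, 68719476736)] rfl (by decide +kernel)
end

mutual
theorem A9_c0_t33 : CovD 1 gA9 [(5693243392, 196608000), (206158430208, 68719476736), (3367254360064, 68719476736)] :=
  covD_E kA9_eq (.n 2 (.n 0 (.n 0 (.n 2 (.l 0) (.n 1 (.l 1) (.l 1))) (.n 2 (.l 0) (.n 1 (.l 1) (.n 0 (.l 1) (.l 1))))) (.n 0 (.n 2 (.l 0) (.n 1 (.l 1) (.n 0 (.l 1) (.l 1)))) (.n 2 (.l 0) (.n 1 (.l 1) (.n 1 (.l 1) (.l 1)))))) (.l 1))
    [(5693243392, 196608000), (206158430208, 68719476736), (3367254360064, 68719476736)] rfl (by decide +kernel)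
theorem A9_c0_t37 : CovD 1 gA9 [(5988155392, 98304000), (68719476736, 68719476736), (3332894621696, 34359738368)] :=
  covD_E kA9_eq (.n 1 (.n 1 (.n 2 (.l 0) (.l 1)) (.n 2 (.l 0) (.l 1))) (.n 2 (.l 0) (.n 1 (.l 1) (.l 1))))
    [(5988155392, 98304000), (68719476736, 68719476736), (3332894621696, 34359738368)] rfl (by decide +kernel)
end

mutual
theorem A9_c0_t38 : CovD 1 gA9 [(6184763392, 98304000), (68719476736, 68719476736), (3332894621696, 34359738368)] :=
  covD_E kA9_eq (.n 1 (.n 0 (.n 2 (.l 0) (.n 1 (.l 1) (.l 1))) (.n 2 (.l 0) (.n 1 (.l 1) (.l 1)))) (.n 2 (.l 0) (.n 0 (.n 1 (.l 1) (.l 1)) (.n 1 (.l 1) (.l 1)))))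
    [(6184763392, 98304000), (68719476736, 68719476736), (3332894621696, 34359738368)] rfl (by decide +kernel)
theorem A9_c0_t39 : CovD 1 gA9 [(6086459392, 196608000), (68719476736, 68719476736), (3401614098432, 34359738368)] :=
  covD_E kA9_eq (.l 1)
    [(6086459392, 196608000), (68719476736, 68719476736), (3401614098432, 34359738368)] rfl (by decide +kernel)
end

mutual
theorem A9_c0_t42 : CovD 1 gA9 [(5988155392, 98304000), (206158430208, 68719476736), (3332894621696, 34359738368)] :=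
  covD_E kA9_eq (.n 2 (.n 0 (.l 0) (.l 0)) (.n 2 (.n 0 (.n 1 (.l 1) (.n 1 (.l 1) (.l 1))) (.n 1 (.n 0 (.l 1) (.l 1)) (.n 1 (.l 1) (.l 1)))) (.l 1)))
    [(5988155392, 98304000), (206158430208, 68719476736), (3332894621696, 34359738368)] rfl (by decide +kernel)
theorem A9_c0_t43 : CovD 1 gA9 [(6184763392, 98304000), (206158430208, 68719476736), (3332894621696, 34359738368)] :=
  covD_E kA9_eq (.n 1 (.n 2 (.l 0) (.n 0 (.n 1 (.l 1) (.l 1)) (.n 1 (.l 1) (.l 1)))) (.n 2 (.l 0) (.n 2 (.n 2 (.l 0) (.l 1)) (.l 1))))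
    [(6184763392, 98304000), (206158430208, 68719476736), (3332894621696, 34359738368)] rfl (by decide +kernel)
end

mutual
theorem A9_c0_t44 : CovD 1 gA9 [(6086459392, 196608000), (206158430208, 68719476736), (3401614098432, 34359738368)] :=
  covD_E kA9_eq (.l 1)
    [(6086459392, 196608000), (206158430208, 68719476736), (3401614098432, 34359738368)] rfl (by decide +kernel)
theorem A9_c0_t45 : CovD 1 gA9 [(5889851392, 393216000), (137438953472, 137438953472), (3504693313536, 68719476736)] :=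
  covD_E kA9_eq (.l 1)
    [(5889851392, 393216000), (137438953472, 137438953472), (3504693313536, 68719476736)] rfl (by decide +kernel)
end

mutual
theorem A9_c0_t46 : CovD 1 gA9 [(5889851392, 393216000), (137438953472, 137438953472), (3710851743744, 137438953472)] :=
  covD_E kA9_eq (.l 1)
    [(5889851392, 393216000), (137438953472, 137438953472), (3710851743744, 137438953472)] rfl (by decide +kernel)
theorem A9_c0_t47 : CovD 1 gA9 [(5889851392, 393216000), (137438953472, 137438953472), (4123168604160, 274877906944)] :=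
  covD_E kA9_eq (.l 1)
    [(5889851392, 393216000), (137438953472, 137438953472), (4123168604160, 274877906944)] rfl (by decide +kernel)
end

mutual
theorem A9_c0_t48 : CovD 1 gA9 [(5889851392, 393216000), (137438953472, 137438953472), (6597069766656, 2199023255552)] :=
  covD_E kA9_eq (.n 2 (.n 2 (.l 1) (.l 1)) (.n 0 (.l 1) (.l 1)))
    [(5889851392, 393216000), (137438953472, 137438953472), (6597069766656, 2199023255552)] rfl (by decide +kernel)
theorem B9_c0_t3 : CovD 1 gB9 [(5889851392, 393216000), (137438953472, 137438953472), (8589934592, 8589934592)] :=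
  covD_E kB9_eq (.n 1 (.n 1 (.n 2 (.n 2 (.l 1) (.l 1)) (.n 2 (.l 1) (.l 1))) (.n 2 (.n 2 (.l 1) (.l 1)) (.n 2 (.l 1) (.l 1)))) (.n 2 (.n 2 (.l 1) (.l 1)) (.n 2 (.l 1) (.l 1))))
    [(5889851392, 393216000), (137438953472, 137438953472), (8589934592, 8589934592)] rfl (by decide +kernel)
end

mutual
theorem B9_c0_t4 : CovD 1 gB9 [(5889851392, 393216000), (137438953472, 137438953472), (25769803776, 8589934592)] :=
  covD_E kB9_eq (.n 2 (.n 1 (.n 2 (.n 0 (.l 1) (.l 1)) (.l 1)) (.n 2 (.l 1) (.l 1))) (.n 2 (.n 0 (.l 1) (.l 1)) (.l 1)))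
    [(5889851392, 393216000), (137438953472, 137438953472), (25769803776, 8589934592)] rfl (by decide +kernel)
theorem B9_c0_t5 : CovD 1 gB9 [(5889851392, 393216000), (137438953472, 137438953472), (51539607552, 17179869184)] :=
  covD_E kB9_eq (.n 2 (.n 2 (.n 2 (.l 1) (.l 1)) (.n 0 (.l 1) (.l 1))) (.n 2 (.l 1) (.l 1)))
    [(5889851392, 393216000), (137438953472, 137438953472), (51539607552, 17179869184)] rfl (by decide +kernel)
end

mutual
theorem B9_c0_t6 : CovD 1 gB9 [(5889851392, 393216000), (137438953472, 137438953472), (103079215104, 34359738368)] :=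
  covD_E kB9_eq (.n 2 (.n 2 (.n 0 (.l 1) (.l 1)) (.l 1)) (.n 2 (.l 1) (.l 1)))
    [(5889851392, 393216000), (137438953472, 137438953472), (103079215104, 34359738368)] rfl (by decide +kernel)
theorem C9_c0_t4 : CovD 1 gC9 [(5889851392, 393216000), (17179869184, 17179869184), (274877906944, 274877906944)] :=
  covD_E kC9_eq (.n 2 (.n 2 (.l 0) (.l 0)) (.n 1 (.n 2 (.l 0) (.l 0)) (.l 0)))
    [(5889851392, 393216000), (17179869184, 17179869184), (274877906944, 274877906944)] rfl (by decide +kernel)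
end

mutual
theorem C9_c0_t5 : CovD 1 gC9 [(5889851392, 393216000), (17179869184, 17179869184), (824633720832, 274877906944)] :=
  covD_E kC9_eq (.n 1 (.n 2 (.n 2 (.l 0) (.l 0)) (.n 2 (.l 0) (.n 2 (.l 0) (.n 2 (.l 0) (.n 2 (.l 0) (.n 2 (.l 0) (.n 2 (.l 0) (.n 2 (.l 0) (.l 1))))))))) (.n 2 (.l 0) (.n 1 (.l 0) (.l 0))))
    [(5889851392, 393216000), (17179869184, 17179869184), (824633720832, 274877906944)] rfl (by decide +kernel)
theorem C9_c0_t6 : CovD 1 gC9 [(5889851392, 393216000), (51539607552, 17179869184), (549755813888, 549755813888)] :=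
  covD_E kC9_eq (.n 2 (.n 2 (.l 0) (.l 0)) (.n 2 (.l 0) (.n 1 (.l 0) (.l 0))))
    [(5889851392, 393216000), (51539607552, 17179869184), (549755813888, 549755813888)] rfl (by decide +kernel)
end

mutual
theorem C9_c0_t7 : CovD 1 gC9 [(5889851392, 393216000), (103079215104, 34359738368), (549755813888, 549755813888)] :=
  covD_E kC9_eq (.n 2 (.n 2 (.l 0) (.l 0)) (.n 2 (.l 0) (.l 0)))
    [(5889851392, 393216000), (103079215104, 34359738368), (549755813888, 549755813888)] rfl (by decide +kernel)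
theorem C9_c0_t8 : CovD 1 gC9 [(5889851392, 393216000), (206158430208, 68719476736), (549755813888, 549755813888)] :=
  covD_E kC9_eq (.n 2 (.n 2 (.l 0) (.l 0)) (.n 2 (.l 0) (.l 0)))
    [(5889851392, 393216000), (206158430208, 68719476736), (549755813888, 549755813888)] rfl (by decide +kernel)
end

mutual
theorem D9_c0_t1 : CovD 1 gD9 [(5889851392, 393216000), (137438953472, 137438953472), (431805169664, 431805169664)] :=
  covD_E kD9_eq (.n 2 (.n 2 (.n 2 (.n 2 (.l 0) (.l 0)) (.n 2 (.l 0) (.l 0))) (.n 2 (.n 2 (.l 0) (.l 0)) (.n 2 (.l 0) (.l 0)))) (.n 2 (.n 2 (.n 2 (.l 0) (.l 0)) (.n 2 (.l 0) (.l 0))) (.n 2 (.n 2 (.l 0) (.l 0)) (.n 2 (.l 0) (.l 0)))))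
    [(5889851392, 393216000), (137438953472, 137438953472), (431805169664, 431805169664)] rfl (by decide +kernel)
theorem D9_c0_t2 : CovD 1 gD9 [(5889851392, 393216000), (137438953472, 137438953472), (1295415508992, 431805169664)] :=
  covD_E kD9_eq (.n 2 (.n 2 (.n 2 (.n 2 (.l 0) (.l 0)) (.n 2 (.l 0) (.l 0))) (.n 2 (.n 2 (.l 0) (.l 0)) (.n 2 (.l 0) (.l 0)))) (.n 2 (.n 2 (.n 2 (.l 0) (.l 0)) (.n 2 (.l 0) (.l 0))) (.n 2 (.n 2 (.l 0) (.l 0)) (.n 2 (.l 0) (.l 0)))))
    [(5889851392, 393216000), (137438953472, 137438953472), (1295415508992, 431805169664)] rfl (by decide +kernel)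
end

mutual
theorem E9_c0_t2 : CovD 1 gE9 [(5889851392, 393216000), (137438953472, 137438953472), (215902584832, 215902584832)] :=
  covD_E kE9_eq (.n 2 (.n 2 (.l 1) (.n 2 (.n 2 (.l 1) (.l 0)) (.n 2 (.l 0) (.l 0)))) (.n 2 (.n 2 (.n 2 (.l 0) (.l 0)) (.n 2 (.l 0) (.l 0))) (.n 2 (.n 2 (.l 0) (.l 0)) (.n 2 (.l 0) (.l 0)))))
    [(5889851392, 393216000), (137438953472, 137438953472), (215902584832, 215902584832)] rfl (by decide +kernel)
theorem E9_c0_t3 : CovD 1 gE9 [(5889851392, 393216000), (137438953472, 137438953472), (647707754496, 215902584832)] :=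
  covD_E kE9_eq (.n 2 (.n 2 (.n 2 (.n 2 (.l 0) (.l 0)) (.n 2 (.l 0) (.l 0))) (.n 2 (.n 2 (.l 0) (.l 0)) (.n 2 (.l 0) (.l 0)))) (.n 2 (.n 2 (.n 2 (.l 0) (.l 0)) (.n 2 (.l 0) (.l 0))) (.n 2 (.n 0 (.l 0) (.l 0)) (.l 0))))
    [(5889851392, 393216000), (137438953472, 137438953472), (647707754496, 215902584832)] rfl (by decide +kernel)
end

theorem E9_c0_t4 : CovD 1 gE9 [(5889851392, 393216000), (137438953472, 137438953472), (1295415508992, 431805169664)] :=
  covD_E kE9_eq (.n 2 (.n 2 (.n 2 (.n 2 (.l 0) (.l 0)) (.n 2 (.l 0) (.l 0))) (.n 2 (.n 2 (.l 0) (.l 0)) (.n 2 (.l 0) (.l 0)))) (.n 2 (.n 2 (.n 2 (.l 0) (.l 0)) (.n 2 (.l 0) (.l 0))) (.n 2 (.n 2 (.l 0) (.l 0)) (.n 2 (.l 0) (.l 0)))))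
    [(5889851392, 393216000), (137438953472, 137438953472), (1295415508992, 431805169664)] rfl (by decide +kernel)

theorem A9_c0_t8 : CovD 1 gA9 [(5889851392, 393216000), (68719476736, 68719476736), (206158430208, 68719476736)] :=
  covD_split 1 (by decide +kernel) A9_c0_t9 A9_c0_t10

theorem A9_c0_t7 : CovD 1 gA9 [(5889851392, 393216000), (137438953472, 137438953472), (206158430208, 68719476736)] :=
  covD_split 1 (by decide +kernel) A9_c0_t8 A9_c0_t11

theorem A9_c0_t5 : CovD 1 gA9 [(5889851392, 393216000), (137438953472, 137438953472), (137438953472, 137438953472)] :=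
  covD_split 2 (by decide +kernel) A9_c0_t6 A9_c0_t7

theorem A9_c0_t13 : CovD 1 gA9 [(5889851392, 393216000), (68719476736, 68719476736), (412316860416, 137438953472)] :=
  covD_split 1 (by decide +kernel) A9_c0_t14 A9_c0_t15

theorem A9_c0_t12 : CovD 1 gA9 [(5889851392, 393216000), (137438953472, 137438953472), (412316860416, 137438953472)] :=
  covD_split 1 (by decide +kernel) A9_c0_t13 A9_c0_t16

theorem A9_c0_t4 : CovD 1 gA9 [(5889851392, 393216000), (137438953472, 137438953472), (274877906944, 274877906944)] :=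
  covD_split 2 (by decide +kernel) A9_c0_t5 A9_c0_t12

theorem A9_c0_t17 : CovD 1 gA9 [(5889851392, 393216000), (137438953472, 137438953472), (824633720832, 274877906944)] :=
  covD_split 1 (by decide +kernel) A9_c0_t18 A9_c0_t19

theorem A9_c0_t3 : CovD 1 gA9 [(5889851392, 393216000), (137438953472, 137438953472), (549755813888, 549755813888)] :=
  covD_split 2 (by decide +kernel) A9_c0_t4 A9_c0_t17

theorem A9_c0_t20 : CovD 1 gA9 [(5889851392, 393216000), (137438953472, 137438953472), (1649267441664, 549755813888)] :=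
  covD_split 1 (by decide +kernel) A9_c0_t21 A9_c0_t22

theorem A9_c0_t2 : CovD 1 gA9 [(5889851392, 393216000), (137438953472, 137438953472), (1099511627776, 1099511627776)] :=
  covD_split 2 (by decide +kernel) A9_c0_t3 A9_c0_t20

theorem A9_c0_t24 : CovD 1 gA9 [(5889851392, 393216000), (137438953472, 137438953472), (2748779069440, 549755813888)] :=
  covD_split 1 (by decide +kernel) A9_c0_t25 A9_c0_t26

theorem A9_c0_t31 : CovD 1 gA9 [(5693243392, 196608000), (137438953472, 137438953472), (3367254360064, 68719476736)] :=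
  covD_split 1 (by decide +kernel) A9_c0_t32 A9_c0_t33

theorem A9_c0_t36 : CovD 1 gA9 [(6086459392, 196608000), (68719476736, 68719476736), (3332894621696, 34359738368)] :=
  covD_split 0 (by decide +kernel) A9_c0_t37 A9_c0_t38

theorem A9_c0_t35 : CovD 1 gA9 [(6086459392, 196608000), (68719476736, 68719476736), (3367254360064, 68719476736)] :=
  covD_split 2 (by decide +kernel) A9_c0_t36 A9_c0_t39

theorem A9_c0_t41 : CovD 1 gA9 [(6086459392, 196608000), (206158430208, 68719476736), (3332894621696, 34359738368)] :=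
  covD_split 0 (by decide +kernel) A9_c0_t42 A9_c0_t43

theorem A9_c0_t40 : CovD 1 gA9 [(6086459392, 196608000), (206158430208, 68719476736), (3367254360064, 68719476736)] :=
  covD_split 2 (by decide +kernel) A9_c0_t41 A9_c0_t44

theorem A9_c0_t34 : CovD 1 gA9 [(6086459392, 196608000), (137438953472, 137438953472), (3367254360064, 68719476736)] :=
  covD_split 1 (by decide +kernel) A9_c0_t35 A9_c0_t40

theorem A9_c0_t30 : CovD 1 gA9 [(5889851392, 393216000), (137438953472, 137438953472), (3367254360064, 68719476736)] :=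
  covD_split 0 (by decide +kernel) A9_c0_t31 A9_c0_t34

theorem A9_c0_t29 : CovD 1 gA9 [(5889851392, 393216000), (137438953472, 137438953472), (3435973836800, 137438953472)] :=
  covD_split 2 (by decide +kernel) A9_c0_t30 A9_c0_t45

theorem A9_c0_t28 : CovD 1 gA9 [(5889851392, 393216000), (137438953472, 137438953472), (3573412790272, 274877906944)] :=
  covD_split 2 (by decide +kernel) A9_c0_t29 A9_c0_t46

theorem A9_c0_t27 : CovD 1 gA9 [(5889851392, 393216000), (137438953472, 137438953472), (3848290697216, 549755813888)] :=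
  covD_split 2 (by decide +kernel) A9_c0_t28 A9_c0_t47

theorem A9_c0_t23 : CovD 1 gA9 [(5889851392, 393216000), (137438953472, 137438953472), (3298534883328, 1099511627776)] :=
  covD_split 2 (by decide +kernel) A9_c0_t24 A9_c0_t27

theorem A9_c0_t1 : CovD 1 gA9 [(5889851392, 393216000), (137438953472, 137438953472), (2199023255552, 2199023255552)] :=
  covD_split 2 (by decide +kernel) A9_c0_t2 A9_c0_t23

theorem A9_c0 : CovD 1 gA9 [(5889851392, 393216000), (137438953472, 137438953472), (4398046511104, 4398046511104)] :=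
  covD_split 2 (by decide +kernel) A9_c0_t1 A9_c0_t48

theorem B9_c0_t2 : CovD 1 gB9 [(5889851392, 393216000), (137438953472, 137438953472), (17179869184, 17179869184)] :=
  covD_split 2 (by decide +kernel) B9_c0_t3 B9_c0_t4

theorem B9_c0_t1 : CovD 1 gB9 [(5889851392, 393216000), (137438953472, 137438953472), (34359738368, 34359738368)] :=
  covD_split 2 (by decide +kernel) B9_c0_t2 B9_c0_t5

theorem B9_c0 : CovD 1 gB9 [(5889851392, 393216000), (137438953472, 137438953472), (68719476736, 68719476736)] :=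
  covD_split 2 (by decide +kernel) B9_c0_t1 B9_c0_t6

theorem C9_c0_t3 : CovD 1 gC9 [(5889851392, 393216000), (17179869184, 17179869184), (549755813888, 549755813888)] :=
  covD_split 2 (by decide +kernel) C9_c0_t4 C9_c0_t5

theorem C9_c0_t2 : CovD 1 gC9 [(5889851392, 393216000), (34359738368, 34359738368), (549755813888, 549755813888)] :=
  covD_split 1 (by decide +kernel) C9_c0_t3 C9_c0_t6

theorem C9_c0_t1 : CovD 1 gC9 [(5889851392, 393216000), (68719476736, 68719476736), (549755813888, 549755813888)] :=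
  covD_split 1 (by decide +kernel) C9_c0_t2 C9_c0_t7

theorem C9_c0 : CovD 1 gC9 [(5889851392, 393216000), (137438953472, 137438953472), (549755813888, 549755813888)] :=
  covD_split 1 (by decide +kernel) C9_c0_t1 C9_c0_t8

theorem D9_c0 : CovD 1 gD9 [(5889851392, 393216000), (137438953472, 137438953472), (863610339328, 863610339328)] :=
  covD_split 2 (by decide +kernel) D9_c0_t1 D9_c0_t2

theorem E9_c0_t1 : CovD 1 gE9 [(5889851392, 393216000), (137438953472, 137438953472), (431805169664, 431805169664)] :=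
  covD_split 2 (by decide +kernel) E9_c0_t2 E9_c0_t3

theorem E9_c0 : CovD 1 gE9 [(5889851392, 393216000), (137438953472, 137438953472), (863610339328, 863610339328)] :=
  covD_split 2 (by decide +kernel) E9_c0_t1 E9_c0_t4

end Pool.Agent.helper14.NS.Q175a
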