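import Pool.Agent.helper14.NS.Q175a.PZ

/-!
Generated: certificates.
-/

namespace Pool.Agent.helper14.NS.Q175a

open Pool.Agent.helper31.IA (Z)
open Pool.Agent.helper31.IX (Op XOps runX Cov CovD cov_split covD_split)
open Pool.Agent.helper31.IC (TD)
open Pool.Agent.helper63.RG (reloc)
open Pool.Agent.helper63.NF hiding TD
open Pool.Agent.helper4.NS
open Pool.Agent.helper14.CF (xE covD_E)
open Pool.Agent.helper14.NR (share)

mutual
theorem Z_c0_t3 : CovD 1 gZ [(5889851392, 393216000), (34359738368, 34359738368), (284500688896, 229525946368)] :=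
  covD_E kZ_eq (.n 2 (.n 2 (.n 2 (.n 1 (.n 2 (.n 1 (.l 0) (.l 0)) (.l 0)) (.n 2 (.l 0) (.l 0))) (.n 2 (.l 0) (.l 0))) (.n 2 (.l 0) (.l 0))) (.n 2 (.n 2 (.l 0) (.l 0)) (.n 2 (.n 1 (.l 0) (.l 0)) (.n 2 (.l 0) (.l 0)))))
    [(5889851392, 393216000), (34359738368, 34359738368), (284500688896, 229525946368)] rfl (by decide +kernel)
theorem Z_c0_t5 : CovD 1 gZ [(5889851392, 393216000), (34359738368, 34359738368), (628789608448, 114762973184)] :=
  covD_E kZ_eq (.n 2 (.n 2 (.n 2 (.l 0) (.n 0 (.l 0) (.l 0))) (.n 1 (.n 2 (.l 0) (.l 0)) (.n 2 (.l 0) (.l 0)))) (.n 1 (.n 2 (.n 2 (.l 0) (.l 0)) (.n 2 (.l 0) (.l 0))) (.n 2 (.n 2 (.l 0) (.l 0)) (.n 2 (.l 0) (.l 0)))))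
    [(5889851392, 393216000), (34359738368, 34359738368), (628789608448, 114762973184)] rfl (by decide +kernel)
end

mutual
theorem Z_c0_t6 : CovD 1 gZ [(5889851392, 393216000), (34359738368, 34359738368), (858315554816, 114762973184)] :=
  covD_E kZ_eq (.n 2 (.n 2 (.n 2 (.n 1 (.l 0) (.l 0)) (.n 2 (.l 0) (.l 0))) (.n 2 (.n 2 (.l 0) (.l 0)) (.n 2 (.l 0) (.l 0)))) (.n 2 (.n 2 (.n 2 (.l 0) (.l 0)) (.n 2 (.l 0) (.l 0))) (.n 2 (.n 2 (.l 0) (.l 0)) (.n 2 (.l 0) (.l 0)))))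
    [(5889851392, 393216000), (34359738368, 34359738368), (858315554816, 114762973184)] rfl (by decide +kernel)
theorem Z_c0_t8 : CovD 1 gZ [(5889851392, 393216000), (103079215104, 34359738368), (284500688896, 229525946368)] :=
  covD_E kZ_eq (.n 2 (.n 2 (.n 2 (.n 2 (.l 0) (.l 0)) (.l 0)) (.n 2 (.l 0) (.l 0))) (.n 2 (.n 2 (.l 0) (.n 1 (.l 0) (.l 0))) (.n 2 (.n 2 (.l 0) (.l 0)) (.n 1 (.n 2 (.l 0) (.l 0)) (.n 2 (.l 0) (.l 0))))))
    [(5889851392, 393216000), (103079215104, 34359738368), (284500688896, 229525946368)] rfl (by decide +kernel)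
end

mutual
theorem Z_c0_t10 : CovD 1 gZ [(5889851392, 393216000), (103079215104, 34359738368), (628789608448, 114762973184)] :=
  covD_E kZ_eq (.n 2 (.n 1 (.n 2 (.n 2 (.l 0) (.l 0)) (.n 2 (.l 0) (.l 0))) (.n 2 (.n 2 (.l 0) (.l 0)) (.n 2 (.l 0) (.l 0)))) (.n 2 (.n 2 (.n 2 (.l 0) (.l 0)) (.n 2 (.l 0) (.l 0))) (.n 2 (.n 2 (.l 0) (.l 0)) (.n 2 (.l 0) (.l 0)))))
    [(5889851392, 393216000), (103079215104, 34359738368), (628789608448, 114762973184)] rfl (by decide +kernel)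
theorem Z_c0_t11 : CovD 1 gZ [(5889851392, 393216000), (103079215104, 34359738368), (858315554816, 114762973184)] :=
  covD_E kZ_eq (.n 2 (.n 2 (.n 2 (.n 2 (.l 0) (.l 0)) (.n 2 (.l 0) (.l 0))) (.n 2 (.n 2 (.l 0) (.l 0)) (.n 2 (.l 0) (.l 0)))) (.n 2 (.n 2 (.n 2 (.l 0) (.l 0)) (.n 2 (.l 0) (.l 0))) (.n 2 (.n 2 (.l 0) (.l 0)) (.n 2 (.l 0) (.l 0)))))
    [(5889851392, 393216000), (103079215104, 34359738368), (858315554816, 114762973184)] rfl (by decide +kernel)
end

mutual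
theorem Z_c0_t15 : CovD 1 gZ [(5889851392, 393216000), (171798691840, 34359738368), (169737715712, 114762973184)] :=
  covD_E kZ_eq (.n 2 (.n 1 (.n 2 (.l 0) (.l 0)) (.n 2 (.l 0) (.l 0))) (.n 2 (.l 0) (.n 0 (.l 0) (.l 0))))
    [(5889851392, 393216000), (171798691840, 34359738368), (169737715712, 114762973184)] rfl (by decide +kernel)
theorem Z_c0_t16 : CovD 1 gZ [(5889851392, 393216000), (171798691840, 34359738368), (399263662080, 114762973184)] :=
  covD_E kZ_eq (.n 2 (.n 2 (.n 1 (.l 0) (.l 0)) (.n 2 (.l 0) (.l 0))) (.n 2 (.n 2 (.l 0) (.n 0 (.l 0) (.l 0))) (.n 1 (.n 2 (.l 0) (.l 0)) (.n 2 (.l 0) (.l 0)))))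
    [(5889851392, 393216000), (171798691840, 34359738368), (399263662080, 114762973184)] rfl (by decide +kernel)
end

mutual
theorem Z_c0_t18 : CovD 1 gZ [(5889851392, 393216000), (171798691840, 34359738368), (628789608448, 114762973184)] :=
  covD_E kZ_eq (.n 2 (.n 1 (.n 2 (.n 2 (.l 0) (.l 0)) (.n 2 (.l 0) (.l 0))) (.n 2 (.n 2 (.l 0) (.l 0)) (.n 2 (.l 0) (.l 0)))) (.n 2 (.n 2 (.n 2 (.l 0) (.l 0)) (.n 2 (.l 0) (.l 0))) (.n 2 (.n 2 (.l 0) (.l 0)) (.n 2 (.l 0) (.l 0)))))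
    [(5889851392, 393216000), (171798691840, 34359738368), (628789608448, 114762973184)] rfl (by decide +kernel)
theorem Z_c0_t19 : CovD 1 gZ [(5889851392, 393216000), (171798691840, 34359738368), (858315554816, 114762973184)] :=
  covD_E kZ_eq (.n 2 (.n 2 (.n 1 (.n 2 (.l 0) (.l 0)) (.n 2 (.l 0) (.l 0))) (.n 2 (.n 1 (.l 0) (.l 0)) (.n 2 (.l 0) (.l 0)))) (.n 2 (.n 2 (.n 2 (.l 0) (.l 0)) (.n 2 (.l 0) (.l 0))) (.n 2 (.n 2 (.l 0) (.l 0)) (.n 2 (.l 0) (.l 0)))))
    [(5889851392, 393216000), (171798691840, 34359738368), (858315554816, 114762973184)] rfl (by decide +kernel)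
end

mutual
theorem Z_c0_t22 : CovD 1 gZ [(5889851392, 393216000), (240518168576, 34359738368), (169737715712, 114762973184)] :=
  covD_E kZ_eq (.n 2 (.n 2 (.n 2 (.l 0) (.l 0)) (.n 1 (.l 0) (.l 0))) (.n 1 (.n 2 (.l 0) (.l 0)) (.n 2 (.l 0) (.l 0))))
    [(5889851392, 393216000), (240518168576, 34359738368), (169737715712, 114762973184)] rfl (by decide +kernel)
theorem Z_c0_t23 : CovD 1 gZ [(5889851392, 393216000), (240518168576, 34359738368), (399263662080, 114762973184)] :=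
  covD_E kZ_eq (.n 2 (.n 2 (.n 1 (.l 0) (.l 0)) (.n 2 (.l 0) (.l 0))) (.n 2 (.n 2 (.l 0) (.n 0 (.l 0) (.l 0))) (.n 0 (.n 2 (.l 0) (.l 0)) (.n 2 (.l 0) (.l 0)))))
    [(5889851392, 393216000), (240518168576, 34359738368), (399263662080, 114762973184)] rfl (by decide +kernel)
end

mutual
theorem Z_c0_t25 : CovD 1 gZ [(5889851392, 393216000), (240518168576, 34359738368), (628789608448, 114762973184)] :=
  covD_E kZ_eq (.n 2 (.n 0 (.n 2 (.n 2 (.l 0) (.l 0)) (.n 2 (.l 0) (.l 0))) (.n 2 (.n 2 (.l 0) (.l 0)) (.n 2 (.l 0) (.l 0)))) (.n 2 (.n 2 (.n 0 (.l 0) (.l 0)) (.l 0)) (.n 2 (.l 0) (.l 0))))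
    [(5889851392, 393216000), (240518168576, 34359738368), (628789608448, 114762973184)] rfl (by decide +kernel)
theorem Z_c0_t26 : CovD 1 gZ [(5889851392, 393216000), (240518168576, 34359738368), (858315554816, 114762973184)] :=
  covD_E kZ_eq (.n 2 (.n 2 (.n 2 (.l 0) (.l 0)) (.n 2 (.l 0) (.l 0))) (.n 2 (.n 0 (.n 2 (.l 0) (.l 0)) (.n 2 (.l 0) (.l 0))) (.n 2 (.n 2 (.l 0) (.l 0)) (.n 2 (.l 0) (.l 0)))))
    [(5889851392, 393216000), (240518168576, 34359738368), (858315554816, 114762973184)] rfl (by decide +kernel)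
end

mutual
theorem T_c0 : CovD 1 gT [(5889851392, 393216000), (137438953472, 137438953472)] :=
  covD_E kT_eq (.n 1 (.l 0) (.l 0))
    [(5889851392, 393216000), (137438953472, 137438953472)] rfl (by decide +kernel)
theorem S_c0 : CovD 0 gS [(5889851392, 393216000), (137438953472, 137438953472)] :=
  covD_E kS_eq (.l 0)
    [(5889851392, 393216000), (137438953472, 137438953472)] rfl (by decide +kernel)
end

theorem Z_c0_t4 : CovD 1 gZ [(5889851392, 393216000), (34359738368, 34359738368), (743552581632, 229525946368)] :=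
  covD_split 2 (by decide +kernel) Z_c0_t5 Z_c0_t6

theorem Z_c0_t2 : CovD 1 gZ [(5889851392, 393216000), (34359738368, 34359738368), (514026635264, 459051892736)] :=
  covD_split 2 (by decide +kernel) Z_c0_t3 Z_c0_t4

theorem Z_c0_t9 : CovD 1 gZ [(5889851392, 393216000), (103079215104, 34359738368), (743552581632, 229525946368)] :=
  covD_split 2 (by decide +kernel) Z_c0_t10 Z_c0_t11

theorem Z_c0_t7 : CovD 1 gZ [(5889851392, 393216000), (103079215104, 34359738368), (514026635264, 459051892736)] :=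
  covD_split 2 (by decide +kernel) Z_c0_t8 Z_c0_t9

theorem Z_c0_t1 : CovD 1 gZ [(5889851392, 393216000), (68719476736, 68719476736), (514026635264, 459051892736)] :=
  covD_split 1 (by decide +kernel) Z_c0_t2 Z_c0_t7

theorem Z_c0_t14 : CovD 1 gZ [(5889851392, 393216000), (171798691840, 34359738368), (284500688896, 229525946368)] :=
  covD_split 2 (by decide +kernel) Z_c0_t15 Z_c0_t16

theorem Z_c0_t17 : CovD 1 gZ [(5889851392, 393216000), (171798691840, 34359738368), (743552581632, 229525946368)] :=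
  covD_split 2 (by decide +kernel) Z_c0_t18 Z_c0_t19

theorem Z_c0_t13 : CovD 1 gZ [(5889851392, 393216000), (171798691840, 34359738368), (514026635264, 459051892736)] :=
  covD_split 2 (by decide +kernel) Z_c0_t14 Z_c0_t17

theorem Z_c0_t21 : CovD 1 gZ [(5889851392, 393216000), (240518168576, 34359738368), (284500688896, 229525946368)] :=
  covD_split 2 (by decide +kernel) Z_c0_t22 Z_c0_t23

theorem Z_c0_t24 : CovD 1 gZ [(5889851392, 393216000), (240518168576, 34359738368), (743552581632, 229525946368)] :=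
  covD_split 2 (by decide +kernel) Z_c0_t25 Z_c0_t26

theorem Z_c0_t20 : CovD 1 gZ [(5889851392, 393216000), (240518168576, 34359738368), (514026635264, 459051892736)] :=
  covD_split 2 (by decide +kernel) Z_c0_t21 Z_c0_t24

theorem Z_c0_t12 : CovD 1 gZ [(5889851392, 393216000), (206158430208, 68719476736), (514026635264, 459051892736)] :=
  covD_split 1 (by decide +kernel) Z_c0_t13 Z_c0_t20

theorem Z_c0 : CovD 1 gZ [(5889851392, 393216000), (137438953472, 137438953472), (514026635264, 459051892736)] :=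
  covD_split 1 (by decide +kernel) Z_c0_t1 Z_c0_t12

end Pool.Agent.helper14.NS.Q175a
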